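import Mathlib

/-!
Matching lemmas for families of sets of arbitrary cardinality.
-/

namespace Pool.Agent.V1114.Conj

open Cardinal Function

universe u v

/-- Transversals for families of at most `κ` sets of size at least `κ`, `κ` infinite. -/
lemma exists_transversal {I B : Type u} (κ : Cardinal.{u}) (hI : #I ≤ κ)
    (T : I → Set B) (hT : ∀ i, κ ≤ #(T i)) :
    ∃ f : I → B, Injective f ∧ ∀ i, f i ∈ T i := by
  classical
  obtain ⟨_, _, hord⟩ := Cardinal.exists_ord_eq_type_lt I
  have hsmall : ∀ i : I, #(Set.Iio i) < κ := fun i =>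
    lt_of_lt_of_le (Cardinal.mk_Iio_lt i hord) hI
  have hex : ∀ (i : I) (g : ∀ j, j < i → B), ∃ y ∈ T i, ∀ j (h : j < i), g j h ≠ y := by
    intro i g
    by_contra hcon
    push Not at hcon
    have : #(T i) ≤ #(Set.Iio i) := by
      have hsurj : T i ⊆ Set.range (fun j : Set.Iio i => g j.1 j.2) := by
        intro y hy
        obtain ⟨j, h, e⟩ := hcon y hy
        exact ⟨⟨j, h⟩, e⟩
      exact (Cardinal.mk_le_mk_of_subset hsurj).trans Cardinal.mk_range_le
    exact absurd (hsmall i) (not_lt.2 ((hT i).trans this))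
  choose F hF1 hF2 using hex
  let f : I → B := (wellFounded_lt (α := I)).fix F
  have hf : ∀ i, f i = F i (fun j _ => f j) := fun i => (wellFounded_lt (α := I)).fix_eq F i
  refine ⟨f, ?_, fun i => ?_⟩
  · intro i j hij
    by_contra hne
    rcases lt_or_gt_of_ne hne with h | h
    · have := hF2 j (fun k _ => f k) i h
      rw [← hf j] at this
      exact this hij
    · have := hF2 i (fun k _ => f k) j h
      rw [← hf i] at this
      exact this hij.symm
  · rw [hf i]; exact hF1 i _

/-- **Matching lemma for levels.**  `A`, `B` carry level functions into a well-ordered set.  If for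
every level `w` there are at most as many elements of `A` of level `≥ w` as elements of `B` of level
`≥ w`, then there is an injection `A → B` that does not decrease the level. -/
theorem exists_level_injection {A B : Type u} {W : Type v} [LinearOrder W] [WellFoundedLT W]
    (a : A → W) (b : B → W) (h : ∀ w, #{x : A // w ≤ a x} ≤ #{y : B // w ≤ b y}) :
    ∃ f : A → B, Injective f ∧ ∀ x, a x ≤ b (f x) := by
  classical
  rcases isEmpty_or_nonempty A with hA | hA
  · exact ⟨fun x => (hA.false x).elim, fun x => (hA.false x).elim, fun x => (hA.false x).elim⟩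
  let τ : W → Cardinal.{u} := fun w => #{y : B // w ≤ b y}
  have τ_anti : ∀ {w w' : W}, w ≤ w' → τ w' ≤ τ w := fun {w w'} hw =>
    Cardinal.mk_subtype_mono (fun y (hy : w' ≤ b y) => hw.trans hy)
  have hle : ∀ w, #{x : A // w ≤ a x} ≤ τ w := h
  -- infinite part: for each infinite `κ` a partial matching
  have hinf : ∀ κ : Cardinal.{u}, ℵ₀ ≤ κ → ∃ f : {x : A // τ (a x) = κ} → B, Injective f ∧
      ∀ x, a x.1 ≤ b (f x) ∧ τ (b (f x)) = κ := by
    intro κ hκ
    have hI : #{x : A // τ (a x) = κ} ≤ κ := by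
      rcases isEmpty_or_nonempty {x : A // τ (a x) = κ} with he | he
      · simp
      · -- choose the least level
        have hne : (Set.range (fun x : {x : A // τ (a x) = κ} => a x.1)).Nonempty :=
          Set.range_nonempty _
        obtain ⟨w, ⟨x0, hx0⟩, hmin⟩ := WellFounded.has_min (wellFounded_lt (α := W)) _ hne
        have h1 : #{x : A // τ (a x) = κ} ≤ #{x : A // w ≤ a x} :=
          Cardinal.mk_subtype_mono (fun x hx => not_lt.1 (hmin _ ⟨⟨x, hx⟩, rfl⟩))
        refine h1.trans ((hle w).trans ?_)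
        have hx0' : a x0.1 = w := hx0
        rw [← hx0', x0.2]
    have hT : ∀ x : {x : A // τ (a x) = κ}, κ ≤ #({y : B | a x.1 ≤ b y ∧ τ (b y) = κ} : Set B) := by
      intro x
      by_contra hcon
      push Not at hcon
      have hsplit : ({y : B | a x.1 ≤ b y} : Set B) ⊆
          {y : B | a x.1 ≤ b y ∧ τ (b y) = κ} ∪ {y : B | τ (b y) < κ} := by
        intro y hy
        have : τ (b y) ≤ κ := by rw [← x.2]; exact τ_anti hy
        rcases this.lt_or_eq with h | h
        · exact Or.inr h
        · exact Or.inl ⟨hy, h⟩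
      have hsmall : #({y : B | τ (b y) < κ} : Set B) < κ := by
        by_cases hex : ∃ w : W, τ w < κ
        · obtain ⟨w, hw, hmin⟩ := WellFounded.has_min (wellFounded_lt (α := W))
            {w | τ w < κ} hex
          refine lt_of_le_of_lt ?_ hw
          exact Cardinal.mk_le_mk_of_subset (fun y hy => not_lt.1 (hmin _ hy))
        · push Not at hex
          have : ({y : B | τ (b y) < κ} : Set B) = ∅ := by
            ext y
            simp only [Set.mem_ofPred_eq, Set.mem_empty_iff_false, iff_false, not_lt]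
            exact hex _
          rw [this]
          simp only [Cardinal.mk_eq_zero]
          exact lt_of_lt_of_le Cardinal.aleph0_pos hκ
      have h1 : κ ≤ #({y : B | a x.1 ≤ b y} : Set B) := by
        have := x.2
        exact this.symm.le
      have h2 := (h1.trans (Cardinal.mk_le_mk_of_subset hsplit)).trans (Cardinal.mk_union_le _ _)
      exact absurd (Cardinal.add_lt_of_lt hκ hcon hsmall) (not_lt.2 h2)
    obtain ⟨f, hf1, hf2⟩ := exists_transversal κ hI _ hT
    exact ⟨f, hf1, hf2⟩
  -- finite part: Hall's theorem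
  have hfin : ∃ f : {x : A // τ (a x) < ℵ₀} → B, Injective f ∧ ∀ x, a x.1 ≤ b (f x) := by
    have hT : ∀ x : {x : A // τ (a x) < ℵ₀}, ({y : B | a x.1 ≤ b y} : Set B).Finite := by
      intro x
      have := x.2
      exact Cardinal.lt_aleph0_iff_set_finite.1 this
    let t : {x : A // τ (a x) < ℵ₀} → Finset B := fun x => (hT x).toFinset
    have hall : ∀ s : Finset {x : A // τ (a x) < ℵ₀}, s.card ≤ (s.biUnion t).card := by
      intro s
      rcases s.eq_empty_or_nonempty with rfl | hs
      · simp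
      · obtain ⟨x0, hx0, hmin⟩ := s.exists_min_image (fun x => a x.1) hs
        have h1 : (s.card : Cardinal.{u}) ≤ #{x : A // a x0.1 ≤ a x} := by
          have : (s.card : Cardinal.{u}) = #s := by simp
          rw [this]
          refine Cardinal.mk_le_of_injective (f := fun x : s =>
            (⟨x.1.1, hmin x.1 x.2⟩ : {x : A // a x0.1 ≤ a x})) ?_
          intro x y hxy
          simp only [Subtype.mk.injEq] at hxy
          exact Subtype.ext (Subtype.ext hxy)
        have h2 : #({y : B | a x0.1 ≤ b y} : Set B) ≤ ((s.biUnion t).card : Cardinal.{u}) := by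
          have e : ((s.biUnion t).card : Cardinal.{u}) = #(s.biUnion t : Set B) := by simp
          rw [e]
          refine Cardinal.mk_le_mk_of_subset ?_
          intro y hy
          simp only [Finset.coe_biUnion, Set.mem_iUnion]
          exact ⟨x0, hx0, by simpa [t] using hy⟩
        exact_mod_cast (h1.trans ((hle (a x0.1)).trans h2))
    obtain ⟨f, hf1, hf2⟩ := (Finset.all_card_le_biUnion_card_iff_exists_injective t).1 hall
    exact ⟨f, hf1, fun x => by simpa [t] using hf2 x⟩
  obtain ⟨f0, hf0, hf0'⟩ := hfin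
  choose F hF1 hF2 using hinf
  -- glue
  have hFc : ∀ (κ κ' : Cardinal.{u}) (_ : κ = κ') (hκ : ℵ₀ ≤ κ) (hκ' : ℵ₀ ≤ κ') (x : A)
      (ex : τ (a x) = κ) (ex' : τ (a x) = κ'), F κ hκ ⟨x, ex⟩ = F κ' hκ' ⟨x, ex'⟩ := by
    intro κ κ' e hκ hκ' x ex ex'
    subst e
    rfl
  let f : A → B := fun x => if h : τ (a x) < ℵ₀ then f0 ⟨x, h⟩
    else F (τ (a x)) (not_lt.1 h) ⟨x, rfl⟩
  have hfa : ∀ x (h : τ (a x) < ℵ₀), f x = f0 ⟨x, h⟩ := fun x h => by
    show (if h : τ (a x) < ℵ₀ then f0 ⟨x, h⟩ else F (τ (a x)) (not_lt.1 h) ⟨x, rfl⟩) = _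
    rw [dif_pos h]
  have hfb : ∀ x (h : ¬ τ (a x) < ℵ₀), f x = F (τ (a x)) (not_lt.1 h) ⟨x, rfl⟩ := fun x h => by
    show (if h : τ (a x) < ℵ₀ then f0 ⟨x, h⟩ else F (τ (a x)) (not_lt.1 h) ⟨x, rfl⟩) = _
    rw [dif_neg h]
  have hlev : ∀ x, a x ≤ b (f x) := by
    intro x
    by_cases h : τ (a x) < ℵ₀
    · rw [hfa x h]; exact hf0' ⟨x, h⟩
    · rw [hfb x h]; exact (hF2 _ (not_lt.1 h) ⟨x, rfl⟩).1
  refine ⟨f, ?_, hlev⟩
  intro x y hxy
  by_cases hx : τ (a x) < ℵ₀
  · by_cases hy : τ (a y) < ℵ₀
    · rw [hfa x hx, hfa y hy] at hxy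
      simpa using hf0 hxy
    · exfalso
      have h1 : τ (b (f x)) < ℵ₀ := lt_of_le_of_lt (τ_anti (hlev x)) hx
      have h2 : τ (b (f y)) = τ (a y) := by
        rw [hfb y hy]; exact (hF2 _ (not_lt.1 hy) ⟨y, rfl⟩).2
      rw [hxy, h2] at h1
      exact hy h1
  · by_cases hy : τ (a y) < ℵ₀
    · exfalso
      have h1 : τ (b (f y)) < ℵ₀ := lt_of_le_of_lt (τ_anti (hlev y)) hy
      have h2 : τ (b (f x)) = τ (a x) := by
        rw [hfb x hx]; exact (hF2 _ (not_lt.1 hx) ⟨x, rfl⟩).2
      rw [← hxy, h2] at h1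
      exact hx h1
    · have h1 : τ (b (f x)) = τ (a x) := by
        rw [hfb x hx]; exact (hF2 _ (not_lt.1 hx) ⟨x, rfl⟩).2
      have h2 : τ (b (f y)) = τ (a y) := by
        rw [hfb y hy]; exact (hF2 _ (not_lt.1 hy) ⟨y, rfl⟩).2
      have h3 : τ (a x) = τ (a y) := by rw [← h1, ← h2, hxy]
      rw [hfb x hx, hfb y hy, hFc _ _ h3 (not_lt.1 hx) (not_lt.1 hy) x rfl h3] at hxy
      simpa using hF1 _ _ hxy

end Pool.Agent.V1114.Conj
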