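import Pool.Agent.V1114.Conj.Orb
import Pool.Agent.V1114.Conj.Match

/-!
Components of partial injective maps; invariants; gluing.
-/

namespace Pool.Agent.V1114.Conj

open Cardinal Function

universe u

variable {X : Type u}

/-- The set of vertices of the component of `x`. -/
def orbitSet (a : X ≃. X) (x : X) : Set X := {y | ∃ n : ℤ, orb a n x = some y}

/-- The components of `a` which are cycles of length `k` (`k ≥ 1`), resp. double rays (`k = 0`),
given by their sets of vertices. -/
def biOrbits (a : X ≃. X) (k : ℕ) : Set (Set X) :=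
  {S | ∃ x, (∀ n : ℤ, (orb a n x).isSome) ∧ (∀ n : ℤ, orb a n x = some x ↔ (k : ℤ) ∣ n) ∧
    S = orbitSet a x}

/-- The right rays of `a`, given by their initial points. -/
def rightRays (a : X ≃. X) : Set X :=
  {x | a.symm x = none ∧ ∀ n : ℕ, (orb a n x).isSome}

/-- The left rays of `a`, given by their terminal points. -/
def leftRays (a : X ≃. X) : Set X :=
  {y | a y = none ∧ ∀ n : ℕ, (orb a (-(n : ℤ)) y).isSome}

/-- The terminal points of `a` with at least `k` predecessors. -/
def terminals (a : X ≃. X) (k : ℕ) : Set X :=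
  {y | a y = none ∧ (orb a (-(k : ℤ)) y).isSome}

lemma orbitSet_eq_of_conn {a : X ≃. X} {x y : X} (h : Conn a x y) :
    orbitSet a x = orbitSet a y := by
  ext z
  exact ⟨fun hz => h.symm.trans hz, fun hz => h.trans hz⟩

lemma mem_orbitSet_self (a : X ≃. X) (x : X) : x ∈ orbitSet a x := ⟨0, rfl⟩

lemma conn_of_orbitSet_eq {a : X ≃. X} {x y : X} (h : orbitSet a x = orbitSet a y) :
    Conn a x y := by
  have : y ∈ orbitSet a x := by rw [h]; exact mem_orbitSet_self a y
  exact this

lemma conn_of_mem_biOrbits {a : X ≃. X} {k : ℕ} {S : Set X} (hS : S ∈ biOrbits a k) {x y : X}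
    (hx : x ∈ S) (hy : y ∈ S) : Conn a x y := by
  obtain ⟨z, _, _, rfl⟩ := hS
  exact Conn.trans (Conn.symm hx) hy

lemma biOrbits_eq_of_mem {a : X ≃. X} {k : ℕ} {S : Set X} (hS : S ∈ biOrbits a k) {x : X}
    (hx : x ∈ S) : S = orbitSet a x := by
  obtain ⟨z, _, _, rfl⟩ := hS
  exact orbitSet_eq_of_conn hx

lemma biOrbits_nonempty {a : X ≃. X} {k : ℕ} {S : Set X} (hS : S ∈ biOrbits a k) :
    ∃ x, x ∈ S ∧ (∀ n : ℤ, (orb a n x).isSome) ∧ (∀ n : ℤ, orb a n x = some x ↔ (k : ℤ) ∣ n) ∧
    S = orbitSet a x := by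
  obtain ⟨z, h1, h2, rfl⟩ := hS
  exact ⟨z, mem_orbitSet_self a z, h1, h2, rfl⟩

/-- every point has a period -/
lemma exists_period (a : X ≃. X) (x : X) :
    ∃ k : ℕ, ∀ n : ℤ, orb a n x = some x ↔ (k : ℤ) ∣ n := by
  let H : AddSubgroup ℤ :=
    { carrier := {n | orb a n x = some x}
      zero_mem' := rfl
      add_mem' := fun {p q} hp hq => orb_add hp hq
      neg_mem' := fun {p} hp => orb_symm hp }
  obtain ⟨k, hk⟩ := Int.subgroup_cyclic H
  refine ⟨k.natAbs, fun n => ?_⟩
  have : n ∈ H ↔ k ∣ n := by
    rw [hk, AddSubgroup.mem_closure_singleton]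
    constructor
    · rintro ⟨m, rfl⟩; exact ⟨m, by simp [mul_comm]⟩
    · rintro ⟨m, rfl⟩; exact ⟨m, by simp [mul_comm]⟩
  rw [Int.natAbs_dvd]
  exact this

/-- forward iterates: either the forward orbit is infinite or it ends in a terminal point -/
lemma forward_cases (a : X ≃. X) (x : X) :
    (∀ n : ℕ, (orb a n x).isSome) ∨ ∃ (n : ℕ) (y : X), orb a n x = some y ∧ a y = none := by
  by_cases h : ∀ n : ℕ, (orb a n x).isSome
  · exact Or.inl h
  · right
    push Not at h
    classical
    have hf := Nat.find_spec h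
    set n := Nat.find h with hn
    have hn0 : n ≠ 0 := by
      intro h0
      rw [h0] at hf
      simp at hf
    obtain ⟨m, hm⟩ := Nat.exists_eq_succ_of_ne_zero hn0
    have hlt : (orb a m x).isSome := by
      by_contra hcon
      have := Nat.find_min' h hcon
      omega
    obtain ⟨y, hy⟩ := Option.isSome_iff_exists.1 hlt
    refine ⟨m, y, hy, ?_⟩
    have := orb_succ_of hy
    rw [← this]
    rw [hm] at hf
    simpa using hf

lemma orb_symm_eq (a : X ≃. X) (n : ℤ) (x : X) : orb a.symm n x = orb a (-n) x := by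
  rcases n with n | n
  · show it a.symm n x = orb a (-(n : ℤ)) x
    rw [orb_neg_nat]
  · show it a.symm.symm (n + 1) x = _
    rw [PEquiv.symm_symm, Int.neg_negSucc]
    rfl

/-- backward iterates: either infinite or starts in an initial point -/
lemma backward_cases (a : X ≃. X) (x : X) :
    (∀ n : ℕ, (orb a (-(n : ℤ)) x).isSome) ∨
      ∃ (n : ℕ) (y : X), orb a (-(n : ℤ)) x = some y ∧ a.symm y = none := by
  rcases forward_cases a.symm x with h | h
  · left; intro n; rw [← orb_symm_eq]; exact h n
  · right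
    obtain ⟨n, y, h1, h2⟩ := h
    exact ⟨n, y, by rw [← orb_symm_eq]; exact h1, h2⟩

/-- a partial injective map from a relation -/
lemma exists_pequiv (R : X → X → Prop) (h1 : ∀ x y y', R x y → R x y' → y = y')
    (h2 : ∀ x x' y, R x y → R x' y → x = x') : ∃ g : X ≃. X, ∀ x y, g x = some y ↔ R x y := by
  classical
  have key : ∀ x y, (if h : ∃ y, R x y then some (Classical.choose h) else none) = some y ↔
      R x y := by
    intro x y
    split_ifs with h
    · rw [Option.some.injEq]
      constructor
      · rintro rfl; exact Classical.choose_spec h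
      · intro hxy; exact h1 _ _ _ (Classical.choose_spec h) hxy
    · simp only [reduceCtorEq, false_iff]
      exact fun hxy => h ⟨y, hxy⟩
  have key' : ∀ y x, (if h : ∃ x, R x y then some (Classical.choose h) else none) = some x ↔
      R x y := by
    intro y x
    split_ifs with h
    · rw [Option.some.injEq]
      constructor
      · rintro rfl; exact Classical.choose_spec h
      · intro hxy; exact h2 _ _ _ (Classical.choose_spec h) hxy
    · simp only [reduceCtorEq, false_iff]
      exact fun hxy => h ⟨x, hxy⟩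
  refine ⟨⟨fun x => if h : ∃ y, R x y then some (Classical.choose h) else none,
    fun y => if h : ∃ x, R x y then some (Classical.choose h) else none, ?_⟩, ?_⟩
  · intro x y
    exact (key' y x).trans (key x y).symm
  · intro x y
    exact key x y

/-- equality of two iterates of a point -/
lemma orb_eq_iff {a : X ≃. X} {n m : ℤ} {x y : X} (h : orb a n x = some y) :
    orb a m x = some y ↔ orb a (m - n) x = some x := by
  constructor
  · intro h'
    have := orb_add h' (orb_symm h)
    rwa [← sub_eq_add_neg] at this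
  · intro h'
    have := orb_shift h' n
    rw [sub_add_cancel, h] at this
    exact this

/-- **Gluing.** -/
lemma exists_glue {a b : X ≃. X} {I : Type u} (s t : I → X) (δ : I → ℤ)
    (hs : ∀ i j, Conn a (s i) (s j) → i = j) (ht : ∀ i j, Conn b (t i) (t j) → i = j)
    (hp : ∀ i n, orb a n (s i) = some (s i) ↔ orb b n (t i) = some (t i)) :
    ∃ g : X ≃. X, ∀ x y, g x = some y ↔
      ∃ i n, orb a n (s i) = some x ∧ orb b (n + δ i) (t i) = some y := by
  refine exists_pequiv _ ?_ ?_
  · rintro x y y' ⟨i, n, h1, h2⟩ ⟨j, m, h3, h4⟩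
    obtain rfl : i = j := hs i j (Conn.trans ⟨n, h1⟩ (Conn.symm ⟨m, h3⟩))
    rw [orb_eq_iff h1, hp] at h3
    have h5 : orb b (m + δ i) (t i) = some y := by
      rw [orb_eq_iff h2]
      rw [← h3]; congr 1; ring
    rw [h5] at h4
    exact Option.some.inj h4
  · rintro x x' y ⟨i, n, h1, h2⟩ ⟨j, m, h3, h4⟩
    obtain rfl : i = j := ht i j (Conn.trans ⟨_, h2⟩ (Conn.symm ⟨_, h4⟩))
    rw [orb_eq_iff h2] at h4
    have h5 : orb a m (s i) = some x := by
      rw [orb_eq_iff h1, hp, ← h4]; congr 1; ring
    rw [h5] at h3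
    exact Option.some.inj h3

open Classical in
/-- number of predecessors of a point, in `ℕ∞` -/
noncomputable def level (a : X ≃. X) (y : X) : ℕ∞ :=
  if h : ∃ n : ℕ, ¬ (orb a (-(n : ℤ)) y).isSome then ((Nat.find h - 1 : ℕ) : ℕ∞) else ⊤

lemma le_level_iff (a : X ≃. X) (y : X) (n : ℕ) :
    (n : ℕ∞) ≤ level a y ↔ (orb a (-(n : ℤ)) y).isSome := by
  classical
  unfold level
  split_ifs with h
  · have hf := Nat.find_spec h
    have hmin := fun m => Nat.find_min' h (m := m)
    set p := Nat.find h with hpdef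
    have hp0 : p ≠ 0 := by
      intro h0
      rw [h0] at hf
      simp at hf
    rw [Nat.cast_le]
    constructor
    · intro hn
      by_contra hcon
      have := hmin n hcon
      omega
    · intro hn
      by_contra hcon
      apply hf
      exact orb_convex hn (by simp : (orb a 0 y).isSome) (by omega) (by omega)
  · push Not at h
    simp [h n]

lemma top_le_level_iff (a : X ≃. X) (y : X) :
    (⊤ : ℕ∞) ≤ level a y ↔ ∀ n : ℕ, (orb a (-(n : ℤ)) y).isSome := by
  rw [top_le_iff, ENat.eq_top_iff_forall_ge]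
  exact forall_congr' fun n => le_level_iff a y n

end Pool.Agent.V1114.Conj
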