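import Mathlib

/-!
Matchings between levelled sets where levels may differ by at most one.
-/

namespace Pool.Agent.V1114.Conj

open Cardinal Function

universe u

/-- membership in the set `C` of the Mendelsohn–Dulmage argument -/
inductive InC {A B : Type u} (A1 : Set A) (B1 : Set B) (f : A → B) (g : B → A) : A → Prop
  | base (x : A) (hx : x ∈ A1) (h : ∀ y ∈ B1, g y ≠ x) : InC A1 B1 f g x
  | step (x : A) (h : InC A1 B1 f g x) (h1 : f x ∈ B1) (h2 : g (f x) ∈ A1) :
      InC A1 B1 f g (g (f x))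

lemma InC.mem {A B : Type u} {A1 : Set A} {B1 : Set B} {f : A → B} {g : B → A} {x : A}
    (h : InC A1 B1 f g x) : x ∈ A1 := by
  cases h with
  | base x hx _ => exact hx
  | step x _ _ h2 => exact h2

/-- Mendelsohn–Dulmage theorem. -/
theorem exists_double_matching {A B : Type u} (A1 : Set A) (B1 : Set B) (R : A → B → Prop)
    (f : A → B) (g : B → A) (hf : Set.InjOn f A1) (hg : Set.InjOn g B1)
    (hfR : ∀ x ∈ A1, R x (f x)) (hgR : ∀ y ∈ B1, R (g y) y) :
    ∃ M : A → B → Prop, (∀ x y, M x y → R x y) ∧ (∀ x y y', M x y → M x y' → y = y') ∧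
      (∀ x x' y, M x y → M x' y → x = x') ∧ (∀ x ∈ A1, ∃ y, M x y) ∧
      (∀ y ∈ B1, ∃ x, M x y) := by
  classical
  let C : A → Prop := InC A1 B1 f g
  have hgC : ∀ y ∈ B1, (∀ x, C x → f x ≠ y) → ¬ C (g y) := by
    intro y hy hne hC
    have key : ∀ z, C z → z = g y → False := by
      intro z hz
      cases hz with
      | base z hz h => exact fun e => h y hy e.symm
      | step z hz h1 h2 =>
        intro e
        exact hne z hz (hg h1 hy e)
    exact key _ hC rfl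
  refine ⟨fun x y => (C x ∧ f x = y) ∨ (y ∈ B1 ∧ (∀ z, C z → f z ≠ y) ∧ g y = x), ?_, ?_, ?_,
    ?_, ?_⟩
  · rintro x y (⟨h1, rfl⟩ | ⟨h1, _, rfl⟩)
    · exact hfR x h1.mem
    · exact hgR y h1
  · rintro x y y' (⟨h1, rfl⟩ | ⟨h1, h2, rfl⟩) (⟨h3, rfl⟩ | ⟨h3, h4, h5⟩)
    · rfl
    · exact absurd (h5 ▸ h1) (hgC y' h3 h4)
    · exact absurd h3 (hgC y h1 h2)
    · exact hg h1 h3 h5.symm
  · rintro x x' y (⟨h1, rfl⟩ | ⟨h1, h2, rfl⟩) (⟨h3, h5⟩ | ⟨h3, h4, h5⟩)
    · exact hf h1.mem h3.mem h5.symm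
    · exact absurd rfl (h4 x h1)
    · exact absurd h5 (h2 x' h3)
    · exact h5
  · intro x hx
    by_cases hC : C x
    · exact ⟨f x, Or.inl ⟨hC, rfl⟩⟩
    · by_cases h : ∃ y ∈ B1, g y = x
      · obtain ⟨y, hy, rfl⟩ := h
        refine ⟨y, Or.inr ⟨hy, ?_, rfl⟩⟩
        rintro z hz rfl
        exact hC (InC.step z hz hy hx)
      · push Not at h
        exact absurd (InC.base x hx h) hC
  · intro y hy
    by_cases h : ∃ x, C x ∧ f x = y
    · obtain ⟨x, h1, h2⟩ := h
      exact ⟨x, Or.inl ⟨h1, h2⟩⟩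
    · push Not at h
      exact ⟨g y, Or.inr ⟨hy, h, rfl⟩⟩

lemma exists_total_of_le {A B : Type u} [Nonempty B] (S : Set A) (T : Set B) (h : #S ≤ #T) :
    ∃ f : A → B, Set.InjOn f S ∧ ∀ x ∈ S, f x ∈ T := by
  classical
  obtain ⟨e⟩ := h
  refine ⟨fun x => if hx : x ∈ S then (e ⟨x, hx⟩).1 else Classical.arbitrary B, ?_, ?_⟩
  · intro x hx y hy hxy
    simp only [dif_pos hx, dif_pos hy] at hxy
    have := e.injective (Subtype.ext hxy)
    simpa using this
  · intro x hx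
    simp only [dif_pos hx]
    exact (e ⟨x, hx⟩).2

/-- Interval condition implies Hall's condition for finite neighbourhoods. -/
lemma hall_of_intervals {A B : Type u} (a : A → ℕ) (b : B → ℕ)
    (h : ∀ p q, 1 ≤ p → p ≤ q →
      #{x : A // p ≤ a x ∧ a x ≤ q} ≤ #{y : B // p ≤ b y + 1 ∧ b y ≤ q + 1})
    (t : A → Finset B) :
    ∀ s : Finset A, (∀ x ∈ s, 1 ≤ a x ∧ ∀ y, y ∈ t x ↔ (a x ≤ b y + 1 ∧ b y ≤ a x + 1)) →
      s.card ≤ (letI := Classical.decEq B; (s.biUnion t).card) := by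
  classical
  intro s
  induction hn : s.card using Nat.strong_induction_on generalizing s with
  | _ n ih =>
    intro ht
    subst hn
    rcases s.eq_empty_or_nonempty with rfl | hs
    · simp
    obtain ⟨x0, hx0, hmin⟩ := s.exists_min_image a hs
    -- cluster end
    have hex : ∃ q, a x0 ≤ q ∧ (∀ x ∈ s, a x ≠ q + 1) ∧ (∀ x ∈ s, a x ≠ q + 2) := by
      obtain ⟨x1, hx1, hmax⟩ := s.exists_max_image a hs
      exact ⟨a x1, hmax x0 hx0, fun x hx e => by have := hmax x hx; omega,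
        fun x hx e => by have := hmax x hx; omega⟩
    obtain ⟨hq1, hq2, hq3⟩ := Nat.find_spec hex
    have hq4 := fun m => Nat.find_min' hex (m := m)
    set q := Nat.find hex with hq
    let s1 := s.filter (fun x => a x ≤ q)
    let s2 := s.filter (fun x => ¬ a x ≤ q)
    have hx01 : x0 ∈ s1 := Finset.mem_filter.2 ⟨hx0, hq1⟩
    have hcard : s1.card + s2.card = s.card := Finset.card_filter_add_card_filter_not _
    have hs1pos : 0 < s1.card := Finset.card_pos.2 ⟨x0, hx01⟩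
    have hs2 : s2.card ≤ (s2.biUnion t).card := by
      refine ih s2.card (by omega) s2 rfl ?_
      intro x hx
      exact ht x (Finset.mem_filter.1 hx).1
    have hs1 : s1.card ≤ (s1.biUnion t).card := by
      have e1 : (s1.card : Cardinal.{u}) ≤ #{x : A // a x0 ≤ a x ∧ a x ≤ q} := by
        have : (s1.card : Cardinal.{u}) = #s1 := by simp
        rw [this]
        refine Cardinal.mk_le_of_injective (f := fun x : s1 =>
          (⟨x.1, hmin x.1 (Finset.mem_filter.1 x.2).1, (Finset.mem_filter.1 x.2).2⟩ :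
            {x : A // a x0 ≤ a x ∧ a x ≤ q})) ?_
        intro x y hxy
        simp only [Subtype.mk.injEq] at hxy
        exact Subtype.ext hxy
      have e2 : #{y : B // a x0 ≤ b y + 1 ∧ b y ≤ q + 1} ≤
          ((s1.biUnion t).card : Cardinal.{u}) := by
        have e : ((s1.biUnion t).card : Cardinal.{u}) = #(s1.biUnion t : Set B) := by simp
        rw [e]
        refine Cardinal.mk_le_mk_of_subset (α := B) (s := {y | a x0 ≤ b y + 1 ∧ b y ≤ q + 1}) ?_
        rintro y ⟨hy1, hy2⟩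
        simp only [Finset.coe_biUnion, Set.mem_iUnion]
        by_cases h3 : b y ≤ a x0 + 1
        · refine ⟨x0, hx01, ?_⟩
          exact ((ht x0 hx0).2 y).2 ⟨hy1, h3⟩
        · push Not at h3
          -- the level `b y - 2` is not a cluster end
          have h4 : ¬ (a x0 ≤ b y - 2 ∧ (∀ x ∈ s, a x ≠ b y - 2 + 1) ∧
              (∀ x ∈ s, a x ≠ b y - 2 + 2)) := by
            intro hcon
            have := hq4 _ hcon
            omega
          have h5 : ∃ x ∈ s, a x = b y - 1 ∨ a x = b y := by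
            by_contra hcon
            push Not at hcon
            apply h4
            refine ⟨by omega, fun x hx e => ?_, fun x hx e => ?_⟩
            · exact (hcon x hx).1 (by omega)
            · exact (hcon x hx).2 (by omega)
          obtain ⟨x, hx, hxl⟩ := h5
          have h6 : a x ≤ q := by
            rcases hxl with e | e
            · omega
            · have := hq2 x hx
              omega
          refine ⟨x, Finset.mem_filter.2 ⟨hx, h6⟩, ?_⟩
          exact ((ht x hx).2 y).2 (by omega)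
      have := e1.trans ((h (a x0) q (ht x0 hx0).1 hq1).trans e2)
      exact_mod_cast this
    have hdisj : Disjoint (s1.biUnion t) (s2.biUnion t) := by
      rw [Finset.disjoint_left]
      intro y hy1 hy2
      rw [Finset.mem_biUnion] at hy1 hy2
      obtain ⟨x, hx, hyx⟩ := hy1
      obtain ⟨z, hz, hyz⟩ := hy2
      obtain ⟨hx1, hx2⟩ := Finset.mem_filter.1 hx
      obtain ⟨hz1, hz2⟩ := Finset.mem_filter.1 hz
      have e1 := ((ht x hx1).2 y).1 hyx
      have e2 := ((ht z hz1).2 y).1 hyz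
      have e3 := hq2 z hz1
      have e4 := hq3 z hz1
      omega
    have hsub : s1.biUnion t ∪ s2.biUnion t ⊆ s.biUnion t := by
      intro y hy
      rw [Finset.mem_union, Finset.mem_biUnion, Finset.mem_biUnion] at hy
      rw [Finset.mem_biUnion]
      rcases hy with ⟨x, hx, hyx⟩ | ⟨x, hx, hyx⟩
      · exact ⟨x, (Finset.mem_filter.1 hx).1, hyx⟩
      · exact ⟨x, (Finset.mem_filter.1 hx).1, hyx⟩
    have hfin := Finset.card_le_card hsub
    rw [Finset.card_union_of_disjoint hdisj] at hfin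
    omega

/-- one-sided matching -/
theorem exists_path_injection {A B : Type u} (a : A → ℕ) (b : B → ℕ)
    (h : ∀ p q, 1 ≤ p → p ≤ q →
      #{x : A // p ≤ a x ∧ a x ≤ q} ≤ #{y : B // p ≤ b y + 1 ∧ b y ≤ q + 1}) :
    ∃ f : {x : A // 1 ≤ a x} → B, Injective f ∧ ∀ x, a x.1 ≤ b (f x) + 1 ∧ b (f x) ≤ a x.1 + 1 := by
  classical
  rcases isEmpty_or_nonempty {x : A // 1 ≤ a x} with hA | hA
  · exact ⟨fun x => (hA.false x).elim, fun x => (hA.false x).elim, fun x => (hA.false x).elim⟩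
  obtain ⟨x00⟩ := hA
  -- neighbourhoods of levels
  let N : ℕ → Set B := fun j => {y | j ≤ b y + 1 ∧ b y ≤ j + 1}
  have hfib : ∀ j, 1 ≤ j → #{x : A | a x = j} ≤ #(N j) := by
    intro j hj
    refine le_trans ?_ (h j j hj le_rfl)
    exact Cardinal.mk_subtype_mono (fun x hx => ⟨hx.ge, hx.le⟩)
  have hBne : Nonempty B := by
    have h1 := hfib (a x00.1) x00.2
    by_contra hcon
    rw [not_nonempty_iff] at hcon
    have h2 : #(N (a x00.1)) = 0 := Cardinal.mk_eq_zero_iff.2 inferInstance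
    rw [h2, nonpos_iff_eq_zero, Cardinal.mk_eq_zero_iff] at h1
    exact h1.false ⟨x00.1, rfl⟩
  -- infinite neighbourhoods
  have hinf : ∀ j, ∃ m, ℵ₀ ≤ #(N j) → (j ≤ m + 1 ∧ m ≤ j + 1 ∧ #(N j) ≤ #{y : B | b y = m}) := by
    intro j
    by_cases hj : ℵ₀ ≤ #(N j)
    · by_contra hcon
      push Not at hcon
      have hb : ∀ m, j ≤ m + 1 → m ≤ j + 1 → #{y : B | b y = m} < #(N j) :=
        fun m h1 h2 => (hcon m).2 h1 h2
      have hsub : N j ⊆ ({y : B | b y = j - 1} ∪ {y : B | b y = j}) ∪ {y : B | b y = j + 1} := by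
        rintro y ⟨h1, h2⟩
        simp only [Set.mem_union, Set.mem_ofPred_eq]
        omega
      have h1 := (Cardinal.mk_le_mk_of_subset hsub).trans (Cardinal.mk_union_le _ _)
      have h2 : #(↥({y : B | b y = j - 1} ∪ {y : B | b y = j})) < #(N j) :=
        lt_of_le_of_lt (Cardinal.mk_union_le _ _)
          (Cardinal.add_lt_of_lt hj (hb _ (by omega) (by omega)) (hb _ (by omega) (by omega)))
      exact absurd (Cardinal.add_lt_of_lt hj h2 (hb _ (by omega) (by omega))) (not_lt.2 h1)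
    · exact ⟨0, fun h' => absurd h' hj⟩
  choose m hm using hinf
  have hι : ∀ j, ∃ f : A → B, (1 ≤ j ∧ ℵ₀ ≤ #(N j)) →
      Set.InjOn f {x | a x = j} ∧ ∀ x ∈ {x | a x = j}, f x ∈ {y : B | b y = m j} := by
    intro j
    by_cases hj : 1 ≤ j ∧ ℵ₀ ≤ #(N j)
    · obtain ⟨f, hf⟩ := exists_total_of_le {x | a x = j} {y : B | b y = m j}
        ((hfib j hj.1).trans (hm j hj.2).2.2)
      exact ⟨f, fun _ => hf⟩
    · exact ⟨fun _ => Classical.arbitrary B, fun h' => absurd h' hj⟩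
  choose ι hι using hι
  have hE : ∀ n, ∃ E : ULift.{u} ℕ × B → B, ℵ₀ ≤ #{y : B | b y = n} →
      Set.InjOn E {p | b p.2 = n} ∧ ∀ p ∈ {p : ULift.{u} ℕ × B | b p.2 = n},
        E p ∈ {y : B | b y = n} := by
    intro n
    by_cases hn : ℵ₀ ≤ #{y : B | b y = n}
    · obtain ⟨f, hf⟩ := exists_total_of_le {p : ULift.{u} ℕ × B | b p.2 = n} {y : B | b y = n} (by
        have e : #{p : ULift.{u} ℕ × B | b p.2 = n} ≤ #(ULift.{u} ℕ × {y : B | b y = n}) := by
          refine Cardinal.mk_le_of_injective (f := fun p => (p.1.1, ⟨p.1.2, p.2⟩)) ?_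
          intro p q hpq
          simp only [Prod.mk.injEq, Subtype.mk.injEq] at hpq
          exact Subtype.ext (Prod.ext hpq.1 hpq.2)
        refine e.trans ?_
        rw [Cardinal.mk_prod]
        simp only [Cardinal.mk_uLift, Cardinal.mk_nat, Cardinal.lift_aleph0, Cardinal.lift_id]
        rw [Cardinal.aleph0_mul_eq hn])
      exact ⟨f, fun _ => hf⟩
    · exact ⟨fun _ => Classical.arbitrary B, fun h' => absurd h' hn⟩
  choose E hE using hE
  let finf : A → B := fun x => E (m (a x)) (⟨a x⟩, ι (a x) x)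
  have hfinf1 : ∀ x, 1 ≤ a x → ℵ₀ ≤ #(N (a x)) → b (finf x) = m (a x) := by
    intro x h1 h2
    have h3 := (hι (a x) ⟨h1, h2⟩).2 x rfl
    exact (hE (m (a x)) (h2.trans (hm _ h2).2.2)).2 (⟨a x⟩, ι (a x) x) h3
  have hfinf2 : ∀ x y, 1 ≤ a x → ℵ₀ ≤ #(N (a x)) → 1 ≤ a y → ℵ₀ ≤ #(N (a y)) →
      finf x = finf y → x = y := by
    intro x y h1 h2 h3 h4 hxy
    have e : m (a x) = m (a y) := by
      rw [← hfinf1 x h1 h2, ← hfinf1 y h3 h4, hxy]
    have h5 := (hι (a x) ⟨h1, h2⟩).2 x rfl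
    have h6 := (hι (a y) ⟨h3, h4⟩).2 y rfl
    have h7 := (hE (m (a x)) (h2.trans (hm _ h2).2.2)).1
    have h8 : E (m (a x)) (⟨a x⟩, ι (a x) x) = E (m (a x)) (⟨a y⟩, ι (a y) y) := by
      have : E (m (a x)) (⟨a x⟩, ι (a x) x) = E (m (a y)) (⟨a y⟩, ι (a y) y) := hxy
      rw [this, e]
    have h9 := h7 h5 (by rw [e]; exact h6) h8
    simp only [Prod.mk.injEq, ULift.up.injEq] at h9
    obtain ⟨h10, h11⟩ := h9
    refine (hι (a x) ⟨h1, h2⟩).1 rfl h10.symm ?_
    rw [h11, h10]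
  -- finite neighbourhoods
  have hfin : ∃ f : {x : A // 1 ≤ a x ∧ #(N (a x)) < ℵ₀} → B, Injective f ∧
      ∀ x, f x ∈ N (a x.1) := by
    let t : A → Finset B := fun x => if hx : (N (a x)).Finite then hx.toFinset else ∅
    have ht : ∀ x, #(N (a x)) < ℵ₀ → ∀ y, y ∈ t x ↔ (a x ≤ b y + 1 ∧ b y ≤ a x + 1) := by
      intro x hx y
      have hx' : (N (a x)).Finite := Cardinal.lt_aleph0_iff_set_finite.1 hx
      simp only [t, dif_pos hx', Set.Finite.mem_toFinset]
      rfl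
    have hall := hall_of_intervals a b h t
    have := (Finset.all_card_le_biUnion_card_iff_exists_injective
      (fun x : {x : A // 1 ≤ a x ∧ #(N (a x)) < ℵ₀} => t x.1)).1 (by
        intro s
        have h1 := hall (s.map ⟨Subtype.val, Subtype.val_injective⟩) (by
          intro x hx
          rw [Finset.mem_map] at hx
          obtain ⟨z, _, rfl⟩ := hx
          exact ⟨z.2.1, ht z.1 z.2.2⟩)
        rw [Finset.card_map] at h1
        refine h1.trans (Finset.card_le_card ?_)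
        intro y hy
        rw [Finset.mem_biUnion] at hy ⊢
        obtain ⟨x, hx, hyx⟩ := hy
        rw [Finset.mem_map] at hx
        obtain ⟨z, hz, rfl⟩ := hx
        exact ⟨z, hz, hyx⟩)
    obtain ⟨f, hf1, hf2⟩ := this
    exact ⟨f, hf1, fun x => (ht x.1 x.2.2 _).1 (hf2 x)⟩
  obtain ⟨f0, hf0, hf0'⟩ := hfin
  let f : {x : A // 1 ≤ a x} → B := fun x => if hx : #(N (a x.1)) < ℵ₀ then f0 ⟨x.1, x.2, hx⟩
    else finf x.1
  have hfa : ∀ x (hx : #(N (a x.1)) < ℵ₀), f x = f0 ⟨x.1, x.2, hx⟩ := fun x hx => dif_pos hx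
  have hfb : ∀ x (hx : ¬ #(N (a x.1)) < ℵ₀), f x = finf x.1 := fun x hx => dif_neg hx
  -- values in infinite levels
  have hbig : ∀ x : {x : A // 1 ≤ a x}, ¬ #(N (a x.1)) < ℵ₀ →
      ℵ₀ ≤ #{y : B | b y = b (finf x.1)} := by
    intro x hx
    rw [hfinf1 x.1 x.2 (not_lt.1 hx)]
    exact (not_lt.1 hx).trans (hm _ (not_lt.1 hx)).2.2
  have hsmall : ∀ (x : {x : A // 1 ≤ a x}) (hx : #(N (a x.1)) < ℵ₀), #{y : B | b y = b (f0 ⟨x.1, x.2, hx⟩)} < ℵ₀ := by
    intro x hx
    refine lt_of_le_of_lt (Cardinal.mk_le_mk_of_subset ?_) hx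
    intro y hy
    have h1 := hf0' ⟨x.1, x.2, hx⟩
    have h2 : b y = b (f0 ⟨x.1, x.2, hx⟩) := hy
    show a x.1 ≤ b y + 1 ∧ b y ≤ a x.1 + 1
    rw [h2]
    exact h1
  refine ⟨f, ?_, ?_⟩
  · intro x y hxy
    by_cases hx : #(N (a x.1)) < ℵ₀
    · by_cases hy : #(N (a y.1)) < ℵ₀
      · rw [hfa x hx, hfa y hy] at hxy
        have := hf0 hxy
        simp only [Subtype.mk.injEq] at this
        exact Subtype.ext this
      · exfalso
        rw [hfa x hx, hfb y hy] at hxy
        have h1 := hsmall x hx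
        rw [hxy] at h1
        exact absurd (hbig y hy) (not_le.2 h1)
    · by_cases hy : #(N (a y.1)) < ℵ₀
      · exfalso
        rw [hfb x hx, hfa y hy] at hxy
        have h1 := hsmall y hy
        rw [← hxy] at h1
        exact absurd (hbig x hx) (not_le.2 h1)
      · rw [hfb x hx, hfb y hy] at hxy
        exact Subtype.ext (hfinf2 x.1 y.1 x.2 (not_lt.1 hx) y.2 (not_lt.1 hy) hxy)
  · intro x
    by_cases hx : #(N (a x.1)) < ℵ₀
    · rw [hfa x hx]
      exact hf0' ⟨x.1, x.2, hx⟩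
    · rw [hfb x hx, hfinf1 x.1 x.2 (not_lt.1 hx)]
      have := hm _ (not_lt.1 hx)
      exact ⟨this.1, this.2.1⟩

/-- two-sided matching -/
theorem exists_path_matching {A B : Type u} (a : A → ℕ) (b : B → ℕ)
    (h : ∀ p q, 1 ≤ p → p ≤ q →
      #{x : A // p ≤ a x ∧ a x ≤ q} ≤ #{y : B // p ≤ b y + 1 ∧ b y ≤ q + 1})
    (h' : ∀ p q, 1 ≤ p → p ≤ q →
      #{y : B // p ≤ b y ∧ b y ≤ q} ≤ #{x : A // p ≤ a x + 1 ∧ a x ≤ q + 1}) :
    ∃ M : A → B → Prop, (∀ x y, M x y → a x ≤ b y + 1 ∧ b y ≤ a x + 1) ∧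
      (∀ x y y', M x y → M x y' → y = y') ∧ (∀ x x' y, M x y → M x' y → x = x') ∧
      (∀ x, 1 ≤ a x → ∃ y, M x y) ∧ (∀ y, 1 ≤ b y → ∃ x, M x y) := by
  classical
  obtain ⟨f, hf1, hf2⟩ := exists_path_injection a b h
  obtain ⟨g, hg1, hg2⟩ := exists_path_injection b a h'
  rcases isEmpty_or_nonempty A with hA | hA
  · refine ⟨fun _ _ => False, fun _ _ h => h.elim, fun _ _ _ h => h.elim, fun _ _ _ h => h.elim,
      fun x => (hA.false x).elim, fun y hy => (hA.false (g ⟨y, hy⟩)).elim⟩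
  rcases isEmpty_or_nonempty B with hB | hB
  · refine ⟨fun _ _ => False, fun _ _ h => h.elim, fun _ _ _ h => h.elim, fun _ _ _ h => h.elim,
      fun x hx => (hB.false (f ⟨x, hx⟩)).elim, fun y => (hB.false y).elim⟩
  let F : A → B := fun x => if hx : 1 ≤ a x then f ⟨x, hx⟩ else Classical.arbitrary B
  let G : B → A := fun y => if hy : 1 ≤ b y then g ⟨y, hy⟩ else Classical.arbitrary A
  have hF : ∀ x (hx : 1 ≤ a x), F x = f ⟨x, hx⟩ := fun x hx => dif_pos hx
  have hG : ∀ y (hy : 1 ≤ b y), G y = g ⟨y, hy⟩ := fun y hy => dif_pos hy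
  exact exists_double_matching {x | 1 ≤ a x} {y | 1 ≤ b y}
    (fun x y => a x ≤ b y + 1 ∧ b y ≤ a x + 1) F G
    (fun x hx y hy hxy => by
      rw [hF x hx, hF y hy] at hxy
      simpa using hf1 hxy)
    (fun x hx y hy hxy => by
      rw [hG x hx, hG y hy] at hxy
      simpa using hg1 hxy)
    (fun x hx => by
      rw [hF x hx]; exact hf2 ⟨x, hx⟩)
    (fun y hy => by
      rw [hG y hy]; exact ⟨(hg2 ⟨y, hy⟩).2, (hg2 ⟨y, hy⟩).1⟩)

end Pool.Agent.V1114.Conj
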