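import Mathlib

/-!
Iterates of partial injective maps, indexed by the integers.
-/

namespace Pool.Agent.V1114.Conj

universe u

variable {X : Type u}

/-- Forward iterate of a partial function. -/
def it (f : X → Option X) : ℕ → X → Option X
  | 0, x => some x
  | n + 1, x => (it f n x).bind f

/-- The `n`-th iterate, `n ∈ ℤ`, of a partial injective map (for `n < 0` iterate the inverse). -/
def orb (a : X ≃. X) : ℤ → X → Option X
  | Int.ofNat n, x => it a n x
  | Int.negSucc n, x => it a.symm (n + 1) x

@[simp] lemma orb_zero (a : X ≃. X) (x : X) : orb a 0 x = some x := rfl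

lemma orb_nat (a : X ≃. X) (n : ℕ) (x : X) : orb a (n : ℤ) x = it a n x := rfl

lemma orb_one (a : X ≃. X) (x : X) : orb a 1 x = a x := by
  show it a 1 x = a x
  simp [it]

lemma orb_neg_nat (a : X ≃. X) (n : ℕ) (x : X) : orb a (-(n : ℤ)) x = it a.symm n x := by
  cases n with
  | zero => rfl
  | succ n => rfl

lemma orb_neg_one (a : X ≃. X) (x : X) : orb a (-1) x = a.symm x := by
  have := orb_neg_nat a 1 x
  simp only [Nat.cast_one] at this
  rw [this]; simp [it]

lemma orb_succ_of {a : X ≃. X} {n : ℤ} {x y : X} (h : orb a n x = some y) :
    orb a (n + 1) x = a y := by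
  rcases n with n | n
  · show it a (n + 1) x = a y
    have h' : it a n x = some y := h
    simp [it, h']
  · have h' : it a.symm (n + 1) x = some y := h
    have e : (Int.negSucc n + 1 : ℤ) = -(n : ℤ) := by omega
    rw [e, orb_neg_nat]
    simp only [it] at h'
    rw [Option.bind_eq_some_iff] at h'
    obtain ⟨w, hw, hy⟩ := h'
    rw [hw]
    exact ((PEquiv.eq_some_iff a).1 hy).symm

lemma orb_pred_of {a : X ≃. X} {n : ℤ} {x y : X} (h : orb a n x = some y) :
    orb a (n - 1) x = a.symm y := by
  rcases n with n | n
  · have h' : it a n x = some y := h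
    rcases n with _ | n
    · simp only [it, Option.some.injEq] at h'
      subst h'
      exact orb_neg_one a x
    · simp only [it] at h'
      rw [Option.bind_eq_some_iff] at h'
      obtain ⟨w, hw, hy⟩ := h'
      have e : (Int.ofNat (n + 1) - 1 : ℤ) = (n : ℤ) := by simp
      rw [e, orb_nat, hw]
      exact ((PEquiv.eq_some_iff a).2 hy).symm
  · have h' : it a.symm (n + 1) x = some y := h
    have e : (Int.negSucc n - 1 : ℤ) = -((n + 2 : ℕ) : ℤ) := by push_cast; omega
    rw [e, orb_neg_nat]
    show (it a.symm (n + 1) x).bind a.symm = a.symm y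
    rw [h']; rfl

lemma orb_add {a : X ≃. X} {n m : ℤ} {x y z : X} (h : orb a n x = some y)
    (h' : orb a m y = some z) : orb a (n + m) x = some z := by
  rcases m with m | m
  · induction m generalizing z with
    | zero =>
      simp only [Int.ofNat_eq_natCast, Nat.cast_zero, orb_zero, Option.some.injEq] at h'
      subst h'
      simpa using h
    | succ m ih =>
      have h'' : (it a m y).bind a = some z := h'
      rw [Option.bind_eq_some_iff] at h''
      obtain ⟨w, hw, hz⟩ := h''
      have := orb_succ_of (ih hw)
      rw [hz] at this
      rw [← this]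
      congr 1
      simp only [Int.ofNat_eq_natCast]; push_cast; ring
  · induction m generalizing z with
    | zero =>
      have h'' : orb a (-1) y = some z := h'
      rw [orb_neg_one] at h''
      have := orb_pred_of h
      rw [h''] at this
      rw [← this]
      rfl
    | succ m ih =>
      have h'' : (it a.symm (m + 1) y).bind a.symm = some z := h'
      rw [Option.bind_eq_some_iff] at h''
      obtain ⟨w, hw, hz⟩ := h''
      have := orb_pred_of (ih hw)
      rw [hz] at this
      rw [← this]
      congr 1
      omega

lemma orb_symm {a : X ≃. X} {n : ℤ} {x y : X} (h : orb a n x = some y) :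
    orb a (-n) y = some x := by
  rcases n with n | n
  · induction n generalizing y with
    | zero =>
      simp only [Int.ofNat_eq_natCast, Nat.cast_zero, orb_zero, Option.some.injEq] at h
      subst h
      simp
    | succ n ih =>
      have h'' : (it a n x).bind a = some y := h
      rw [Option.bind_eq_some_iff] at h''
      obtain ⟨w, hw, hz⟩ := h''
      have h1 : orb a (-1) y = some w := by
        rw [orb_neg_one]; exact (PEquiv.eq_some_iff a).2 hz
      have := orb_add h1 (ih hw)
      rw [← this]
      congr 1
      simp only [Int.ofNat_eq_natCast]; push_cast; ring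
  · induction n generalizing y with
    | zero =>
      have h'' : orb a (-1) x = some y := h
      rw [orb_neg_one, PEquiv.eq_some_iff] at h''
      show orb a 1 y = some x
      rw [orb_one]; exact h''
    | succ n ih =>
      have h'' : (it a.symm (n + 1) x).bind a.symm = some y := h
      rw [Option.bind_eq_some_iff] at h''
      obtain ⟨w, hw, hz⟩ := h''
      have h1 : orb a 1 y = some w := by
        rw [orb_one]; exact (PEquiv.eq_some_iff a).1 hz
      have := orb_add h1 (ih hw)
      rw [← this]
      congr 1
      simp only [Int.neg_negSucc]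
      push_cast; ring

/-- transfer of iterates to another point of the orbit -/
lemma orb_shift {a : X ≃. X} {n : ℤ} {x y : X} (h : orb a n x = some y) (m : ℤ) :
    orb a (n + m) x = orb a m y := by
  cases h1 : orb a m y with
  | some z => exact orb_add h h1
  | none =>
    cases h2 : orb a (n + m) x with
    | none => rfl
    | some z =>
      have := orb_add (orb_symm h) h2
      rw [neg_add_cancel_left, h1] at this
      cases this

/-- The set of integers `n` with `a^n x` defined is order-convex. -/
lemma orb_convex {a : X ≃. X} {n m k : ℤ} {x : X} (hn : (orb a n x).isSome)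
    (hm : (orb a m x).isSome) (h1 : n ≤ k) (h2 : k ≤ m) : (orb a k x).isSome := by
  have key : ∀ (j : ℕ) (y z : X), orb a j y = some z → ∀ i ≤ j, (orb a (i : ℤ) y).isSome := by
    intro j
    induction j with
    | zero => intro y z h i hi; obtain rfl : i = 0 := by omega
              simp
    | succ j ih =>
      intro y z h i hi
      rcases Nat.lt_or_ge i (j + 1) with hlt | hge
      · have h'' : (it a j y).bind a = some z := h
        rw [Option.bind_eq_some_iff] at h''
        obtain ⟨w, hw, hz⟩ := h''
        exact ih y w hw i (by omega)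
      · obtain rfl : i = j + 1 := by omega
        rw [h]; rfl
  obtain ⟨y, hy⟩ := Option.isSome_iff_exists.1 hn
  obtain ⟨z, hz⟩ := Option.isSome_iff_exists.1 hm
  obtain ⟨j, hj⟩ := Int.eq_ofNat_of_zero_le (show 0 ≤ m - n by omega)
  obtain ⟨i, hi⟩ := Int.eq_ofNat_of_zero_le (show 0 ≤ k - n by omega)
  have e1 : orb a (j : ℤ) y = some z := by
    rw [← orb_shift hy j, ← hz]; congr 1; omega
  have := key j y z e1 i (by omega)
  rw [← orb_shift hy i] at this
  rw [show n + (i : ℤ) = k by omega] at this
  exact this

/-- Two points lie in the same component. -/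
def Conn (a : X ≃. X) (x y : X) : Prop := ∃ n, orb a n x = some y

lemma Conn.refl (a : X ≃. X) (x : X) : Conn a x x := ⟨0, rfl⟩
lemma Conn.symm {a : X ≃. X} {x y : X} (h : Conn a x y) : Conn a y x := by
  obtain ⟨n, hn⟩ := h; exact ⟨-n, orb_symm hn⟩
lemma Conn.trans {a : X ≃. X} {x y z : X} (h : Conn a x y) (h' : Conn a y z) : Conn a x z := by
  obtain ⟨n, hn⟩ := h; obtain ⟨m, hm⟩ := h'; exact ⟨n + m, orb_add hn hm⟩

end Pool.Agent.V1114.Conj
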