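import Pool.Agent.V1114.Conj.Comp

/-!
c-conjugacy in the symmetric inverse monoid.
-/

namespace Pool.Agent.V1114.Conj

open Cardinal Function

universe u

variable {X : Type u}

/-- The set `P(a)` in the symmetric inverse monoid `I(X)` (zero is `⊥`, product is `trans`). -/
def PP (a : X ≃. X) : Set (X ≃. X) :=
  {g | (a = ⊥ → g = ⊥) ∧ (a ≠ ⊥ → ∀ m : X ≃. X, m.trans a ≠ ⊥ → (m.trans a).trans g ≠ ⊥)}

/-- c-conjugacy. -/
def CConj (a b : X ≃. X) : Prop :=
  ∃ g h : X ≃. X, (g ∈ PP a ∨ g = PEquiv.refl X) ∧ (h ∈ PP b ∨ h = PEquiv.refl X) ∧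
    a.trans g = g.trans b ∧ b.trans h = h.trans a

/-- one half of c-conjugacy -/
def Half (a b : X ≃. X) : Prop :=
  ∃ g : X ≃. X, (∀ x, (a.symm x).isSome → (g x).isSome) ∧ a.trans g = g.trans b

lemma ne_bot_of_some {a : X ≃. X} {x y : X} (h : a x = some y) : a ≠ ⊥ := by
  rintro rfl
  simp at h

lemma exists_of_ne_bot {a : X ≃. X} (h : a ≠ ⊥) : ∃ x y, a x = some y := by
  by_contra hcon
  push Not at hcon
  apply h
  ext x y
  constructor
  · intro h'; exact absurd h' (hcon x y)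
  · intro h'; simp at h'

lemma mem_PP_of {a g : X ≃. X} (ha : a ≠ ⊥) (h : ∀ x, (a.symm x).isSome → (g x).isSome) :
    g ∈ PP a := by
  refine ⟨fun h' => absurd h' ha, fun _ m hm => ?_⟩
  obtain ⟨x, y, hxy⟩ := exists_of_ne_bot hm
  have hxy' := hxy
  rw [PEquiv.trans_eq_some] at hxy
  obtain ⟨z, hz1, hz2⟩ := hxy
  have : (a.symm y).isSome := by
    rw [Option.isSome_iff_exists]; exact ⟨z, (PEquiv.eq_some_iff a).2 hz2⟩
  obtain ⟨w, hw⟩ := Option.isSome_iff_exists.1 (h y this)
  exact ne_bot_of_some (x := x) (y := w) ((PEquiv.trans_eq_some _ _ _ _).2 ⟨y, hxy', hw⟩)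

lemma of_mem_PP {a g : X ≃. X} (h : g ∈ PP a ∨ g = PEquiv.refl X) :
    ∀ x, (a.symm x).isSome → (g x).isSome := by
  classical
  intro y hy
  rcases h with h | rfl
  · obtain ⟨x, hx⟩ := Option.isSome_iff_exists.1 hy
    rw [PEquiv.eq_some_iff] at hx
    have ha : a ≠ ⊥ := ne_bot_of_some hx
    have hm : (PEquiv.single x x).trans a ≠ ⊥ :=
      ne_bot_of_some (x := x) (y := y)
        ((PEquiv.trans_eq_some _ _ _ _).2 ⟨x, PEquiv.single_apply x x, hx⟩)
    obtain ⟨z, w, hzw⟩ := exists_of_ne_bot (h.2 ha _ hm)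
    rw [PEquiv.trans_eq_some] at hzw
    obtain ⟨v, hv1, hv2⟩ := hzw
    rw [PEquiv.trans_eq_some] at hv1
    obtain ⟨p, hp1, hp2⟩ := hv1
    have : p = x := by
      have := (PEquiv.mem_single_iff z x p x).1 hp1
      exact this.2
    subst this
    rw [hx] at hp2
    obtain rfl := Option.some.inj hp2
    rw [hv2]; rfl
  · rfl

lemma cconj_iff_half (a b : X ≃. X) : CConj a b ↔ Half a b ∧ Half b a := by
  constructor
  · rintro ⟨g, h, hg, hh, e1, e2⟩
    exact ⟨⟨g, of_mem_PP hg, e1⟩, ⟨h, of_mem_PP hh, e2⟩⟩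
  · rintro ⟨⟨g, hg, e1⟩, ⟨h, hh, e2⟩⟩
    have key : ∀ {a b g : X ≃. X}, (∀ x, (a.symm x).isSome → (g x).isSome) →
        a.trans g = g.trans b → b = ⊥ → a = ⊥ := by
      intro a b g hg e hb
      by_contra ha
      obtain ⟨x, y, hxy⟩ := exists_of_ne_bot ha
      have : (a.symm y).isSome := by
        rw [Option.isSome_iff_exists]; exact ⟨x, (PEquiv.eq_some_iff a).2 hxy⟩
      obtain ⟨w, hw⟩ := Option.isSome_iff_exists.1 (hg y this)
      have h1 : a.trans g x = some w := (PEquiv.trans_eq_some _ _ _ _).2 ⟨y, hxy, hw⟩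
      rw [e, hb, PEquiv.trans_bot] at h1
      simp at h1
    by_cases ha : a = ⊥
    · have hb : b = ⊥ := key hh e2 ha
      subst ha hb
      exact ⟨⊥, ⊥, Or.inl ⟨fun _ => rfl, fun h => absurd rfl h⟩,
        Or.inl ⟨fun _ => rfl, fun h => absurd rfl h⟩, rfl, rfl⟩
    · have hb : b ≠ ⊥ := fun hb => ha (key hg e1 hb)
      exact ⟨g, h, Or.inl (mem_PP_of ha hg), Or.inl (mem_PP_of hb hh), e1, e2⟩

section Necessity

variable {a b g : X ≃. X}

lemma nec_step (hg : ∀ x, (a.symm x).isSome → (g x).isSome) (e : a.trans g = g.trans b)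
    {x y : X} (h : a x = some y) : ∃ x' y', g x = some x' ∧ g y = some y' ∧ b x' = some y' := by
  have : (a.symm y).isSome := by
    rw [Option.isSome_iff_exists]; exact ⟨x, (PEquiv.eq_some_iff a).2 h⟩
  obtain ⟨w, hw⟩ := Option.isSome_iff_exists.1 (hg y this)
  have h1 : a.trans g x = some w := (PEquiv.trans_eq_some _ _ _ _).2 ⟨y, h, hw⟩
  rw [e, PEquiv.trans_eq_some] at h1
  obtain ⟨x', h2, h3⟩ := h1
  exact ⟨x', w, h2, hw, h3⟩

lemma nec_back (e : a.trans g = g.trans b) {x x' y' : X} (h : g x = some x')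
    (h' : b x' = some y') : ∃ y, a x = some y ∧ g y = some y' := by
  have h1 : g.trans b x = some y' := (PEquiv.trans_eq_some _ _ _ _).2 ⟨x', h, h'⟩
  rw [← e, PEquiv.trans_eq_some] at h1
  exact h1

lemma nec_orb_nat (hg : ∀ x, (a.symm x).isSome → (g x).isSome) (e : a.trans g = g.trans b)
    (n : ℕ) {x y x' : X} (h : orb a n x = some y) (hx : g x = some x') :
    ∃ y', g y = some y' ∧ orb b n x' = some y' := by
  induction n generalizing y with
  | zero =>
    simp only [Nat.cast_zero, orb_zero, Option.some.injEq] at h ⊢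
    subst h
    exact ⟨x', hx, rfl⟩
  | succ n ih =>
    have h'' : (it a n x).bind a = some y := h
    rw [Option.bind_eq_some_iff] at h''
    obtain ⟨w, hw, hz⟩ := h''
    obtain ⟨w', hw1, hw2⟩ := ih hw
    obtain ⟨w'', y', h1, h2, h3⟩ := nec_step hg e hz
    rw [hw1] at h1
    obtain rfl := Option.some.inj h1
    refine ⟨y', h2, ?_⟩
    have := orb_succ_of hw2
    rw [h3] at this
    exact_mod_cast this

lemma nec_orb_neg (hg : ∀ x, (a.symm x).isSome → (g x).isSome) (e : a.trans g = g.trans b)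
    (n : ℕ) {x y x' : X} (h : orb a (-(n : ℤ)) x = some y) (hx : g x = some x') :
    ∃ y', g y = some y' ∧ orb b (-(n : ℤ)) x' = some y' := by
  induction n generalizing y with
  | zero =>
    simp only [Nat.cast_zero, neg_zero, orb_zero, Option.some.injEq] at h ⊢
    subst h
    exact ⟨x', hx, rfl⟩
  | succ n ih =>
    rw [orb_neg_nat] at h
    have h'' : (it a.symm n x).bind a.symm = some y := h
    rw [Option.bind_eq_some_iff] at h''
    obtain ⟨w, hw, hz⟩ := h''
    rw [← orb_neg_nat] at hw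
    obtain ⟨w', hw1, hw2⟩ := ih hw
    rw [PEquiv.eq_some_iff] at hz
    obtain ⟨y', w'', h1, h2, h3⟩ := nec_step hg e hz
    rw [hw1] at h2
    obtain rfl := Option.some.inj h2
    refine ⟨y', h1, ?_⟩
    have := orb_pred_of hw2
    rw [(PEquiv.eq_some_iff b).2 h3] at this
    rw [← this]; congr 1; push_cast; ring

lemma nec_orb (hg : ∀ x, (a.symm x).isSome → (g x).isSome) (e : a.trans g = g.trans b)
    (n : ℤ) {x y x' : X} (h : orb a n x = some y) (hx : g x = some x') :
    ∃ y', g y = some y' ∧ orb b n x' = some y' := by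
  rcases Int.eq_nat_or_neg n with ⟨m, rfl | rfl⟩
  · exact nec_orb_nat hg e m h hx
  · exact nec_orb_neg hg e m h hx

lemma nec_terminal (e : a.trans g = g.trans b) {y y' : X} (h : a y = none)
    (hy : g y = some y') : b y' = none := by
  by_contra hcon
  obtain ⟨z, hz⟩ := Option.ne_none_iff_exists'.1 hcon
  obtain ⟨w, hw, _⟩ := nec_back e hy hz
  rw [h] at hw; cases hw

/-- if `g x`, `g y` are in one component then so are `x`, `y` (forward infinite case) -/
lemma nec_conn (hg : ∀ x, (a.symm x).isSome → (g x).isSome) (e : a.trans g = g.trans b)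
    {x y x' y' : X} (hx : g x = some x') (hy : g y = some y')
    (hfx : ∀ n : ℕ, (orb a n x).isSome) (hfy : ∀ n : ℕ, (orb a n y).isSome)
    (hc : Conn b x' y') : Conn a x y := by
  have key : ∀ {x y x' y' : X} (_ : g x = some x') (_ : g y = some y')
    (_ : ∀ n : ℕ, (orb a n x).isSome) (n : ℕ), orb b n x' = some y' → Conn a x y := by
    intro x y x' y' hx hy hfx n hn
    obtain ⟨z, hz⟩ := Option.isSome_iff_exists.1 (hfx n)
    obtain ⟨z', hz1, hz2⟩ := nec_orb_nat hg e n hz hx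
    rw [hn] at hz2
    obtain rfl := Option.some.inj hz2
    have : z = y := PEquiv.inj g (b := y') hz1 hy
    exact ⟨n, by rw [hz, this]⟩
  obtain ⟨n, hn⟩ := hc
  rcases Int.eq_nat_or_neg n with ⟨m, rfl | rfl⟩
  · exact key hx hy hfx m hn
  · have := orb_symm hn
    rw [neg_neg] at this
    exact (key hy hx hfy m this).symm

lemma gsome_of_fwd (hg : ∀ x, (a.symm x).isSome → (g x).isSome) (e : a.trans g = g.trans b)
    {x : X} (h : (a x).isSome) : ∃ x', g x = some x' := by
  obtain ⟨y, hy⟩ := Option.isSome_iff_exists.1 h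
  obtain ⟨x', _, h1, _⟩ := nec_step hg e hy
  exact ⟨x', h1⟩

lemma fwd_one {x : X} (h : ∀ n : ℕ, (orb a n x).isSome) : (a x).isSome := by
  have := h 1
  rw [Nat.cast_one, orb_one] at this
  exact this

lemma nec_biOrbit (hg : ∀ x, (a.symm x).isSome → (g x).isSome) (e : a.trans g = g.trans b)
    {k : ℕ} {x x' : X} (h1 : ∀ n : ℤ, (orb a n x).isSome)
    (h2 : ∀ n : ℤ, orb a n x = some x ↔ (k : ℤ) ∣ n) (hx : g x = some x') :
    (∀ n : ℤ, (orb b n x').isSome) ∧ (∀ n : ℤ, orb b n x' = some x' ↔ (k : ℤ) ∣ n) := by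
  have h3 : ∀ n : ℤ, ∃ y', orb b n x' = some y' ∧ ∃ y, orb a n x = some y ∧ g y = some y' := by
    intro n
    obtain ⟨y, hy⟩ := Option.isSome_iff_exists.1 (h1 n)
    obtain ⟨y', hy1, hy2⟩ := nec_orb hg e n hy hx
    exact ⟨y', hy2, y, hy, hy1⟩
  refine ⟨fun n => ?_, fun n => ?_⟩
  · obtain ⟨y', hy, _⟩ := h3 n
    rw [hy]; rfl
  · rw [← h2 n]
    obtain ⟨y', hy, y, hy1, hy2⟩ := h3 n
    rw [hy, hy1, Option.some.injEq, Option.some.injEq]
    constructor
    · rintro rfl; exact PEquiv.inj g hy2 hx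
    · rintro rfl
      rw [hy2] at hx
      exact Option.some.inj hx

lemma nec_cycles (hg : ∀ x, (a.symm x).isSome → (g x).isSome) (e : a.trans g = g.trans b)
    (k : ℕ) : #(biOrbits a k) ≤ #(biOrbits b k) := by
  have : ∀ S : biOrbits a k, ∃ x x', x ∈ S.1 ∧ (∀ n : ℤ, (orb a n x).isSome) ∧
      g x = some x' ∧ orbitSet b x' ∈ biOrbits b k := by
    rintro ⟨S, hS⟩
    obtain ⟨x, hx, h1, h2, h3⟩ := biOrbits_nonempty hS
    obtain ⟨x', hx'⟩ := gsome_of_fwd hg e (fwd_one fun n => h1 n)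
    obtain ⟨h4, h5⟩ := nec_biOrbit hg e h1 h2 hx'
    exact ⟨x, x', hx, h1, hx', x', h4, h5, rfl⟩
  choose x x' h1 h2 h3 h4 using this
  refine Cardinal.mk_le_of_injective (f := fun S => (⟨orbitSet b (x' S), h4 S⟩ : biOrbits b k)) ?_
  intro S T hST
  simp only [Subtype.mk.injEq] at hST
  have hc := nec_conn hg e (h3 S) (h3 T) (fun n => h2 S n) (fun n => h2 T n)
    (conn_of_orbitSet_eq hST)
  apply Subtype.ext
  rw [biOrbits_eq_of_mem S.2 (h1 S), biOrbits_eq_of_mem T.2 (h1 T)]
  exact orbitSet_eq_of_conn hc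

/-- the point `x` lies in the component encoded by `p` -/
def Rep (a : X ≃. X) (p : biOrbits a 0 ⊕ rightRays a) (x : X) : Prop :=
  Sum.elim (fun S => x ∈ S.1) (fun w => Conn a w.1 x) p

lemma Rep.conn {p : biOrbits a 0 ⊕ rightRays a} {x y : X} (hx : Rep a p x) (hy : Rep a p y) :
    Conn a x y := by
  rcases p with S | w
  · exact conn_of_mem_biOrbits S.2 hx hy
  · exact Conn.trans (Conn.symm hx) hy

lemma conn_initial_eq {w w' : X} (hw : a.symm w = none) (hw' : a.symm w' = none)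
    (h : Conn a w w') : w = w' := by
  have key : ∀ {w w' : X} (_ : a.symm w' = none) (n : ℕ), orb a n w = some w' → w = w' := by
    intro w w' hw' n hn
    rcases n with _ | n
    · simpa using hn
    · exfalso
      have h'' : (it a n w).bind a = some w' := hn
      rw [Option.bind_eq_some_iff] at h''
      obtain ⟨v, _, hz⟩ := h''
      rw [(PEquiv.eq_some_iff a).2 hz] at hw'
      cases hw'
  obtain ⟨n, hn⟩ := h
  rcases Int.eq_nat_or_neg n with ⟨m, rfl | rfl⟩
  · exact key hw' m hn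
  · have := orb_symm hn
    rw [neg_neg] at this
    exact (key hw m this).symm

lemma Rep.unique {p q : biOrbits a 0 ⊕ rightRays a} {x y : X} (hx : Rep a p x) (hy : Rep a q y)
    (h : Conn a x y) : p = q := by
  rcases p with S | w <;> rcases q with T | v
  · congr 1
    apply Subtype.ext
    rw [biOrbits_eq_of_mem S.2 hx, biOrbits_eq_of_mem T.2 hy]
    exact orbitSet_eq_of_conn h
  · exfalso
    obtain ⟨z, hz, h1, h2, h3⟩ := biOrbits_nonempty S.2
    have hc : Conn a z v.1 := (conn_of_mem_biOrbits S.2 hz hx).trans (h.trans (Conn.symm hy))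
    obtain ⟨n, hn⟩ := hc
    have h4 := orb_pred_of hn
    have h5 := h1 (n - 1)
    rw [h4, v.2.1] at h5
    simp at h5
  · exfalso
    obtain ⟨z, hz, h1, h2, h3⟩ := biOrbits_nonempty T.2
    have hc : Conn a z w.1 := (conn_of_mem_biOrbits T.2 hz hy).trans (h.symm.trans (Conn.symm hx))
    obtain ⟨n, hn⟩ := hc
    have h4 := orb_pred_of hn
    have h5 := h1 (n - 1)
    rw [h4, w.2.1] at h5
    simp at h5
  · congr 1
    apply Subtype.ext
    exact conn_initial_eq w.2.1 v.2.1 (Conn.trans hx (Conn.trans h (Conn.symm hy)))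

/-- forward infinite points in an aperiodic component -/
lemma exists_rep {x : X} (hf : ∀ n : ℕ, (orb a n x).isSome)
    (hper : ∀ n : ℤ, orb a n x = some x ↔ ((0 : ℕ) : ℤ) ∣ n) : ∃ p, Rep a p x := by
  rcases backward_cases a x with h | ⟨n, y, h1, h2⟩
  · refine ⟨Sum.inl ⟨orbitSet a x, x, fun n => ?_, hper, rfl⟩, mem_orbitSet_self a x⟩
    rcases Int.eq_nat_or_neg n with ⟨m, rfl | rfl⟩
    · exact hf m
    · exact h m
  · refine ⟨Sum.inr ⟨y, h2, fun m => ?_⟩, Conn.symm ⟨_, h1⟩⟩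
    have h3 := orb_shift h1 (m : ℤ)
    rw [← h3]
    rcases le_total n m with hnm | hnm
    · have := hf (m - n)
      rw [Nat.cast_sub hnm] at this
      rw [show -(n : ℤ) + (m : ℤ) = (m : ℤ) - n by ring]
      exact this
    · refine orb_convex (n := -(n : ℤ)) (m := 0) (by rw [h1]; rfl) (by simp) (by omega) (by omega)

lemma nec_rep (hg : ∀ x, (a.symm x).isSome → (g x).isSome) (e : a.trans g = g.trans b) :
    #(biOrbits a 0) + #(rightRays a) ≤ #(biOrbits b 0) + #(rightRays b) := by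
  rw [Cardinal.add_def, Cardinal.add_def]
  -- representatives
  have hrep : ∀ p : biOrbits a 0 ⊕ rightRays a, ∃ x, Rep a p x ∧ (∀ n : ℕ, (orb a n x).isSome) ∧
      (∀ n : ℕ, orb a n x = some x → n = 0) := by
    rintro (S | w)
    · obtain ⟨x, hx, h1, h2, h3⟩ := biOrbits_nonempty S.2
      refine ⟨x, hx, fun n => h1 n, fun n hn => ?_⟩
      have := (h2 n).1 hn
      simpa using this
    · refine ⟨w.1, Conn.refl _ _, w.2.2, fun n hn => ?_⟩
      rcases n with _ | n
      · rfl
      · exfalso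
        have h'' : (it a n w.1).bind a = some w.1 := hn
        rw [Option.bind_eq_some_iff] at h''
        obtain ⟨v, _, hz⟩ := h''
        have := w.2.1
        rw [(PEquiv.eq_some_iff a).2 hz] at this
        cases this
  have : ∀ p : biOrbits a 0 ⊕ rightRays a, ∃ x x' q, Rep a p x ∧ (∀ n : ℕ, (orb a n x).isSome) ∧
      g x = some x' ∧ Rep b q x' := by
    intro p
    obtain ⟨x, h1, h2, h3⟩ := hrep p
    obtain ⟨x', hx'⟩ := gsome_of_fwd hg e (fwd_one h2)
    have h4 : ∀ n : ℕ, (orb b n x').isSome := by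
      intro n
      obtain ⟨y, hy⟩ := Option.isSome_iff_exists.1 (h2 n)
      obtain ⟨y', _, hy2⟩ := nec_orb_nat hg e n hy hx'
      rw [hy2]; rfl
    have h5 : ∀ n : ℕ, orb b n x' = some x' → n = 0 := by
      intro n hn
      apply h3 n
      obtain ⟨y, hy⟩ := Option.isSome_iff_exists.1 (h2 n)
      obtain ⟨y', hy1, hy2⟩ := nec_orb_nat hg e n hy hx'
      rw [hn] at hy2
      obtain rfl := Option.some.inj hy2
      rw [hy]
      congr 1
      exact PEquiv.inj g hy1 hx'
    obtain ⟨q, hq⟩ := exists_rep (a := b) (x := x') h4 (by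
      intro n
      rw [Nat.cast_zero, zero_dvd_iff]
      constructor
      · intro hn
        rcases Int.eq_nat_or_neg n with ⟨m, rfl | rfl⟩
        · simpa using h5 m hn
        · have := orb_symm hn
          rw [neg_neg] at this
          simpa using h5 m this
      · rintro rfl; rfl)
    exact ⟨x, x', q, h1, h2, hx', hq⟩
  choose x x' q h1 h2 h3 h4 using this
  refine Cardinal.mk_le_of_injective (f := q) ?_
  intro p p' hpp
  have hc := nec_conn hg e (h3 p) (h3 p') (h2 p) (h2 p') (by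
    have := h4 p'
    rw [← hpp] at this
    exact (h4 p).conn this)
  exact (h1 p).unique (h1 p') hc

lemma nec_terminals (hg : ∀ x, (a.symm x).isSome → (g x).isSome) (e : a.trans g = g.trans b)
    (k : ℕ) (hk : 1 ≤ k) : #(terminals a k) ≤ #(terminals b k) := by
  have : ∀ y : terminals a k, ∃ y', g y.1 = some y' ∧ y' ∈ terminals b k := by
    rintro ⟨y, hy1, hy2⟩
    have h1 : (orb a (-1) y).isSome :=
      orb_convex (n := -(k : ℤ)) (m := 0) hy2 (by simp) (by omega) (by omega)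
    rw [orb_neg_one] at h1
    obtain ⟨y', hy'⟩ := Option.isSome_iff_exists.1 (hg y h1)
    refine ⟨y', hy', nec_terminal e hy1 hy', ?_⟩
    obtain ⟨z, hz⟩ := Option.isSome_iff_exists.1 hy2
    obtain ⟨z', _, hz2⟩ := nec_orb hg e _ hz hy'
    rw [hz2]; rfl
  choose f hf1 hf2 using this
  refine Cardinal.mk_le_of_injective (f := fun y => (⟨f y, hf2 y⟩ : terminals b k)) ?_
  intro y z hyz
  simp only [Subtype.mk.injEq] at hyz
  apply Subtype.ext
  have h1 := hf1 y
  have h2 := hf1 z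
  rw [← hyz] at h2
  exact PEquiv.inj g h1 h2

lemma nec_leftRays (hg : ∀ x, (a.symm x).isSome → (g x).isSome) (e : a.trans g = g.trans b) :
    #(leftRays a) ≤ #(leftRays b) := by
  have : ∀ y : leftRays a, ∃ y', g y.1 = some y' ∧ y' ∈ leftRays b := by
    rintro ⟨y, hy1, hy2⟩
    have h1 : (orb a (-1) y).isSome := by simpa using hy2 1
    rw [orb_neg_one] at h1
    obtain ⟨y', hy'⟩ := Option.isSome_iff_exists.1 (hg y h1)
    refine ⟨y', hy', nec_terminal e hy1 hy', fun n => ?_⟩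
    obtain ⟨z, hz⟩ := Option.isSome_iff_exists.1 (hy2 n)
    obtain ⟨z', _, hz2⟩ := nec_orb hg e _ hz hy'
    rw [hz2]; rfl
  choose f hf1 hf2 using this
  refine Cardinal.mk_le_of_injective (f := fun y => (⟨f y, hf2 y⟩ : leftRays b)) ?_
  intro y z hyz
  simp only [Subtype.mk.injEq] at hyz
  apply Subtype.ext
  have h1 := hf1 y
  have h2 := hf1 z
  rw [← hyz] at h2
  exact PEquiv.inj g h1 h2

end Necessity

end Pool.Agent.V1114.Conj
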