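import Pool.Agent.V1114.Conj.Suff
import Pool.Agent.V1114.Conj.Match2

/-!
p-conjugacy in the symmetric inverse monoid.
-/

namespace Pool.Agent.V1114.Conj

open Cardinal Function

universe u

variable {X : Type u}

/-- p-conjugacy. -/
def PConj (a b : X ≃. X) : Prop :=
  ∃ u v : X ≃. X, a = u.trans v ∧ b = v.trans u

/-- The terminal points with at least `p` and at most `q` predecessors, i.e. the finite chains with
at least `p` and at most `q` edges (chains with `0` edges are the points outside the domain and the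
image). -/
def chains (a : X ≃. X) (p q : ℕ) : Set X :=
  {y | a y = none ∧ (orb a (-(p : ℤ)) y).isSome ∧ orb a (-((q + 1 : ℕ) : ℤ)) y = none}

section Necessity

variable {a b u v : X ≃. X}

/-- the hypothesis of this section -/
def Fac (a b u v : X ≃. X) : Prop := a = u.trans v ∧ b = v.trans u

lemma Fac.swap (h : Fac a b u v) : Fac b a v u := ⟨h.2, h.1⟩

lemma Fac.step (h : Fac a b u v) {x y : X} (hx : a x = some y) :
    ∃ x', u x = some x' ∧ v x' = some y := by
  rw [h.1, PEquiv.trans_eq_some] at hx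
  exact hx

lemma Fac.mk_step (h : Fac a b u v) {x y x' : X} (h1 : u x = some x') (h2 : v x' = some y) :
    a x = some y := by
  rw [h.1, PEquiv.trans_eq_some]; exact ⟨x', h1, h2⟩

lemma Fac.orb_nat (h : Fac a b u v) (n : ℕ) {x y x' y' : X} (hn : orb a n x = some y)
    (hx : u x = some x') (hy : u y = some y') : orb b n x' = some y' := by
  induction n generalizing y y' with
  | zero =>
    simp only [Nat.cast_zero, orb_zero, Option.some.injEq] at hn ⊢
    subst hn
    rw [hx] at hy
    exact Option.some.inj hy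
  | succ n ih =>
    have h'' : (it a n x).bind a = some y := hn
    rw [Option.bind_eq_some_iff] at h''
    obtain ⟨w, hw, hz⟩ := h''
    obtain ⟨w', hw1, hw2⟩ := h.step hz
    have h1 := ih hw hw1
    have h2 := orb_succ_of h1
    rw [h.swap.mk_step hw2 hy] at h2
    exact_mod_cast h2

lemma Fac.orb_all (h : Fac a b u v) (n : ℤ) {x y x' y' : X} (hn : orb a n x = some y)
    (hx : u x = some x') (hy : u y = some y') : orb b n x' = some y' := by
  rcases Int.eq_nat_or_neg n with ⟨m, rfl | rfl⟩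
  · exact h.orb_nat m hn hx hy
  · have := orb_symm hn
    rw [neg_neg] at this
    exact orb_symm (h.orb_nat m this hy hx)

lemma Fac.conn (h : Fac a b u v) {x y x' y' : X} (hc : Conn a x y)
    (hx : u x = some x') (hy : u y = some y') : Conn b x' y' := by
  obtain ⟨n, hn⟩ := hc
  exact ⟨n, h.orb_all n hn hx hy⟩

/-- connection can be pulled back -/
lemma Fac.conn_back (h : Fac a b u v) {x y x' y' : X} (hx : u x = some x') (hy : u y = some y')
    (hx1 : (a x).isSome) (hy1 : (a y).isSome) (hc : Conn b x' y') : Conn a x y := by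
  obtain ⟨z, hz⟩ := Option.isSome_iff_exists.1 hx1
  obtain ⟨w, hw⟩ := Option.isSome_iff_exists.1 hy1
  obtain ⟨x'', h1, h2⟩ := h.step hz
  obtain ⟨y'', h3, h4⟩ := h.step hw
  rw [hx] at h1
  rw [hy] at h3
  obtain rfl := Option.some.inj h1
  obtain rfl := Option.some.inj h3
  have h5 := h.swap.conn hc h2 h4
  exact (Conn.trans ⟨1, by rw [orb_one]; exact hz⟩ h5).trans
    (Conn.symm ⟨1, by rw [orb_one]; exact hw⟩)

lemma Fac.usome (h : Fac a b u v) {x : X} (hx : (a x).isSome) : ∃ x', u x = some x' := by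
  obtain ⟨z, hz⟩ := Option.isSome_iff_exists.1 hx
  obtain ⟨x', h1, _⟩ := h.step hz
  exact ⟨x', h1⟩

lemma Fac.le_cycles (h : Fac a b u v) (k : ℕ) : #(biOrbits a k) ≤ #(biOrbits b k) := by
  have : ∀ S : biOrbits a k, ∃ x x', x ∈ S.1 ∧ (∀ n : ℤ, (orb a n x).isSome) ∧
      u x = some x' ∧ orbitSet b x' ∈ biOrbits b k := by
    rintro ⟨S, hS⟩
    obtain ⟨x, hx, h1, h2, h3⟩ := biOrbits_nonempty hS
    have hdom : ∀ n : ℤ, ∃ y y', Conj.orb a n x = some y ∧ u y = some y' := by
      intro n
      obtain ⟨y, hy⟩ := Option.isSome_iff_exists.1 (h1 n)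
      have h4 := h1 (n + 1)
      rw [orb_succ_of hy] at h4
      obtain ⟨y', hy'⟩ := h.usome h4
      exact ⟨y, y', hy, hy'⟩
    obtain ⟨x0, x', h0, hx'⟩ := hdom 0
    simp only [orb_zero, Option.some.injEq] at h0
    subst h0
    refine ⟨x, x', hx, h1, hx', x', ?_, ?_, rfl⟩
    · intro n
      obtain ⟨y, y', hy, hy'⟩ := hdom n
      rw [h.orb_all n hy hx' hy']; rfl
    · intro n
      rw [← h2 n]
      obtain ⟨y, y', hy, hy'⟩ := hdom n
      rw [h.orb_all n hy hx' hy', hy, Option.some.injEq, Option.some.injEq]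
      constructor
      · rintro rfl; exact PEquiv.inj u hy' hx'
      · rintro rfl
        rw [hy'] at hx'
        exact Option.some.inj hx'
  choose x x' h1 h2 h3 h4 using this
  refine Cardinal.mk_le_of_injective (f := fun S => (⟨orbitSet b (x' S), h4 S⟩ : biOrbits b k)) ?_
  intro S T hST
  simp only [Subtype.mk.injEq] at hST
  have hc := h.conn_back (h3 S) (h3 T) (fwd_one fun n => h2 S n) (fwd_one fun n => h2 T n)
    (conn_of_orbitSet_eq hST)
  apply Subtype.ext
  rw [biOrbits_eq_of_mem S.2 (h1 S), biOrbits_eq_of_mem T.2 (h1 T)]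
  exact orbitSet_eq_of_conn hc

lemma Fac.fwd (h : Fac a b u v) {x x' : X} (hx : u x = some x') (hf : Fwd a x) : Fwd b x' := by
  intro n
  obtain ⟨y, hy⟩ := Option.isSome_iff_exists.1 (hf n)
  have h4 := hf (n + 1)
  have h5 := orb_succ_of hy
  push_cast at h4
  rw [h5] at h4
  obtain ⟨y', hy'⟩ := h.usome h4
  rw [h.orb_all n hy hx hy']; rfl

lemma Fac.le_rightRays (h : Fac a b u v) : #(rightRays a) ≤ #(rightRays b) := by
  have : ∀ w : rightRays a, ∃ w' y, u w.1 = some w' ∧ y ∈ Conj.rightRays b ∧ Conn b y w' := by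
    rintro ⟨w, hw1, hw2⟩
    obtain ⟨w', hw'⟩ := h.usome (fwd_one hw2)
    have hf : Fwd b w' := h.fwd hw' hw2
    rcases backward_cases b w' with hb | ⟨n, y, h1, h2⟩
    · exfalso
      have h3 := hb 2
      obtain ⟨t', ht⟩ := Option.isSome_iff_exists.1 h3
      have h4 : orb b 1 t' = b.symm w' := by
        have h5 := orb_shift ht (1 : ℤ)
        rw [← h5, show (-((2 : ℕ) : ℤ) + 1 : ℤ) = -1 by norm_num, orb_neg_one]
      have h6 : (b.symm w').isSome := by
        have := hb 1
        rwa [Nat.cast_one, orb_neg_one] at this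
      obtain ⟨z', hz'⟩ := Option.isSome_iff_exists.1 h6
      rw [hz', orb_one] at h4
      -- b t' = z', b z' = w'
      rw [PEquiv.eq_some_iff] at hz'
      obtain ⟨s, hs1, hs2⟩ := h.swap.step h4
      obtain ⟨r, hr1, hr2⟩ := h.swap.step hz'
      have : r = w := PEquiv.inj u hr2 hw'
      subst this
      have := h.mk_step hs2 hr1
      rw [(PEquiv.eq_some_iff a).2 this] at hw1
      cases hw1
    · have hc : Conn b w' y := ⟨_, h1⟩
      exact ⟨w', y, hw', ⟨h2, hf.of_conn hc⟩, hc.symm⟩
  choose w' y h1 h2 h3 using this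
  refine Cardinal.mk_le_of_injective (f := fun w => (⟨y w, h2 w⟩ : Conj.rightRays b)) ?_
  intro w z hwz
  simp only [Subtype.mk.injEq] at hwz
  have h4 := h3 z
  rw [← hwz] at h4
  have hc := h.conn_back (h1 w) (h1 z) (fwd_one w.2.2) (fwd_one z.2.2) ((h3 w).symm.trans h4)
  exact Subtype.ext (conn_initial_eq w.2.1 z.2.1 hc)

/-- the terminal point of the corresponding component -/
lemma Fac.terminal (h : Fac a b u v) {x y : X} (hy : a y = none) (hx : a x = some y) :
    ∃ x' y', u x = some x' ∧ v x' = some y ∧ b y' = none ∧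
      (y' = x' ∨ b x' = some y') := by
  obtain ⟨x', h1, h2⟩ := h.step hx
  refine ⟨x', ?_⟩
  cases hu : u y with
  | none =>
    refine ⟨x', h1, h2, ?_, Or.inl rfl⟩
    by_contra hcon
    obtain ⟨z, hz⟩ := Option.ne_none_iff_exists'.1 hcon
    obtain ⟨t, ht1, ht2⟩ := h.swap.step hz
    rw [h2] at ht1
    obtain rfl := Option.some.inj ht1
    rw [hu] at ht2; cases ht2
  | some y' =>
    refine ⟨y', h1, h2, ?_, Or.inr (h.swap.mk_step h2 hu)⟩
    by_contra hcon
    obtain ⟨z, hz⟩ := Option.ne_none_iff_exists'.1 hcon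
    obtain ⟨t, ht1, ht2⟩ := h.swap.step hz
    rw [h.mk_step hu ht1] at hy
    cases hy

/-- backward iterates of the new terminal point -/
lemma Fac.terminal_back (h : Fac a b u v) {x y x' y' : X} (hx : a x = some y)
    (h1 : u x = some x') (h3 : y' = x' ∨ b x' = some y') (p : ℕ)
    (hp : (Conj.orb a (-((p + 1 : ℕ) : ℤ)) y).isSome) : (Conj.orb b (-(p : ℤ)) y').isSome := by
  obtain ⟨z, hz⟩ := Option.isSome_iff_exists.1 hp
  have hxy : Conj.orb a (-1) y = some x := by
    rw [orb_neg_one]; exact (PEquiv.eq_some_iff a).2 hx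
  have h4 : Conj.orb a (-(p : ℤ)) x = some z := by
    rw [← orb_shift hxy, ← hz]; congr 1; push_cast; ring
  have h5 : (a z).isSome := by
    have h6 := orb_succ_of hz
    rw [← h6]
    exact orb_convex (n := -((p + 1 : ℕ) : ℤ)) (m := 0) hp (by simp) (by omega)
      (by push_cast; omega)
  obtain ⟨z', hz'⟩ := h.usome h5
  have h6 := h.orb_all _ h4 h1 hz'
  rcases h3 with rfl | h3
  · rw [h6]; rfl
  · have h7 : Conj.orb b (-1) y' = some x' := by
      rw [orb_neg_one]; exact (PEquiv.eq_some_iff b).2 h3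
    have h8 := orb_add h7 h6
    exact orb_convex (n := -1 + -(p : ℤ)) (m := 0) (by rw [h8]; rfl) (by simp) (by omega)
      (by omega)

/-- backward iterates of the old terminal point -/
lemma Fac.terminal_forth (h : Fac a b u v) {x' y y' : X}
    (h2 : v x' = some y) (h3 : y' = x' ∨ b x' = some y') (q : ℕ)
    (hq : (Conj.orb b (-((q + 1 : ℕ) : ℤ)) y').isSome) : (Conj.orb a (-(q : ℤ)) y).isSome := by
  obtain ⟨t', ht⟩ := Option.isSome_iff_exists.1 hq
  have h5 : (b t').isSome := by
    have h6 := orb_succ_of ht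
    rw [← h6]
    exact orb_convex (n := -((q + 1 : ℕ) : ℤ)) (m := 0) hq (by simp) (by omega)
      (by push_cast; omega)
  obtain ⟨t, htt⟩ := h.swap.usome h5
  rcases h3 with rfl | h3
  · have h6 := h.swap.orb_all _ ht h2 htt
    exact orb_convex (n := -((q + 1 : ℕ) : ℤ)) (m := 0) (by rw [h6]; rfl) (by simp)
      (by push_cast; omega) (by omega)
  · have h7 : Conj.orb b (-1) y' = some x' := by
      rw [orb_neg_one]; exact (PEquiv.eq_some_iff b).2 h3
    have h8 : Conj.orb b (-(q : ℤ)) x' = some t' := by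
      rw [← orb_shift h7, ← ht]; congr 1; push_cast; ring
    have h6 := h.swap.orb_all _ h8 h2 htt
    rw [h6]; rfl

lemma Fac.terminal_inj (h : Fac a b u v) {x1 y1 x1' x2 y2 x2' y' : X} (hy1 : a y1 = none)
    (hy2 : a y2 = none) (hx1 : a x1 = some y1) (hx2 : a x2 = some y2) (h1 : u x1 = some x1')
    (h2 : u x2 = some x2') (h3 : y' = x1' ∨ b x1' = some y') (h4 : y' = x2' ∨ b x2' = some y') :
    y1 = y2 := by
  have c1 : Conn b x1' y' := by
    rcases h3 with rfl | h3
    · exact Conn.refl _ _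
    · exact ⟨1, by rw [orb_one]; exact h3⟩
  have c2 : Conn b x2' y' := by
    rcases h4 with rfl | h4
    · exact Conn.refl _ _
    · exact ⟨1, by rw [orb_one]; exact h4⟩
  have c3 := h.conn_back h1 h2 (by rw [hx1]; rfl) (by rw [hx2]; rfl) (c1.trans c2.symm)
  have c4 : Conn a y1 y2 := (Conn.trans (Conn.symm ⟨1, by rw [orb_one]; exact hx1⟩) c3).trans
    ⟨1, by rw [orb_one]; exact hx2⟩
  exact conn_terminal_eq hy1 hy2 c4

lemma exists_pred {y : X} {p : ℕ} (hp : 1 ≤ p) (h : (orb a (-(p : ℤ)) y).isSome) :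
    ∃ x, a x = some y := by
  have h1 : (orb a (-1) y).isSome :=
    orb_convex (n := -(p : ℤ)) (m := 0) h (by simp) (by omega) (by omega)
  rw [orb_neg_one] at h1
  obtain ⟨x, hx⟩ := Option.isSome_iff_exists.1 h1
  exact ⟨x, (PEquiv.eq_some_iff a).1 hx⟩

lemma Fac.le_leftRays (h : Fac a b u v) : #(leftRays a) ≤ #(leftRays b) := by
  have : ∀ y : leftRays a, ∃ x x' y', a x = some y.1 ∧ u x = some x' ∧
      (y' = x' ∨ b x' = some y') ∧ y' ∈ Conj.leftRays b := by
    rintro ⟨y, hy1, hy2⟩
    obtain ⟨x, hx⟩ := exists_pred le_rfl (hy2 1)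
    obtain ⟨x', y', h1, h2, h3, h4⟩ := h.terminal hy1 hx
    refine ⟨x, x', y', hx, h1, h4, h3, fun n => ?_⟩
    exact h.terminal_back hx h1 h4 n (hy2 (n + 1))
  choose x x' y' h1 h2 h3 h4 using this
  refine Cardinal.mk_le_of_injective (f := fun y => (⟨y' y, h4 y⟩ : Conj.leftRays b)) ?_
  intro y z hyz
  simp only [Subtype.mk.injEq] at hyz
  have h5 := h3 z
  rw [← hyz] at h5
  exact Subtype.ext (h.terminal_inj y.2.1 z.2.1 (h1 y) (h1 z) (h2 y) (h2 z) (h3 y) h5)

lemma Fac.le_chains (h : Fac a b u v) (p q : ℕ) (hp : 1 ≤ p) :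
    #(chains a p q) ≤ #(chains b (p - 1) (q + 1)) := by
  have : ∀ y : Conj.chains a p q, ∃ x x' y', a x = some y.1 ∧ u x = some x' ∧
      (y' = x' ∨ b x' = some y') ∧ y' ∈ Conj.chains b (p - 1) (q + 1) := by
    rintro ⟨y, hy1, hy2, hy3⟩
    obtain ⟨x, hx⟩ := exists_pred hp hy2
    obtain ⟨x', y', h1, h2, h3, h4⟩ := h.terminal hy1 hx
    refine ⟨x, x', y', hx, h1, h4, h3, ?_, ?_⟩
    · exact h.terminal_back hx h1 h4 (p - 1) (by rw [Nat.sub_add_cancel hp]; exact hy2)
    · by_contra hcon
      have h5 := h.terminal_forth h2 h4 (q + 1) (Option.isSome_iff_ne_none.2 hcon)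
      rw [hy3] at h5
      simp at h5
  choose x x' y' h1 h2 h3 h4 using this
  refine Cardinal.mk_le_of_injective
    (f := fun y => (⟨y' y, h4 y⟩ : Conj.chains b (p - 1) (q + 1))) ?_
  intro y z hyz
  simp only [Subtype.mk.injEq] at hyz
  have h5 := h3 z
  rw [← hyz] at h5
  exact Subtype.ext (h.terminal_inj y.2.1 z.2.1 (h1 y) (h1 z) (h2 y) (h2 z) (h3 y) h5)

end Necessity

section Sufficiency

/-- the condition for matched components with index shift `δ` -/
structure Emb2 (a b : X ≃. X) (s t : X) (δ : ℤ) : Prop where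
  per : ∃ k, Per a k s ∧ Per b k t
  left : ∀ n : ℤ, (orb a n s).isSome → (orb a (n + 1) s).isSome → (orb b (n + δ) t).isSome
  right : ∀ n : ℤ, (orb b (n + δ) t).isSome → (orb b (n + 1 + δ) t).isSome →
    (orb a (n + 1) s).isSome

lemma pconj_of_emb2 {a b : X ≃. X} {I : Type u} (c : I → Code a) (hc : Injective c)
    (d : I → Code b) (hd : Injective d) (δ : I → ℤ)
    (hE : ∀ i, Emb2 a b (base (c i)) (base (d i)) (δ i))
    (hcov : ∀ x, (a x).isSome → ∃ i, Conn a (base (c i)) x)
    (hcov' : ∀ x, (b x).isSome → ∃ i, Conn b (base (d i)) x) : PConj a b := by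
  have hs : ∀ i j, Conn a (base (c i)) (base (c j)) → i = j := fun i j h => hc (base_unique h)
  have ht : ∀ i j, Conn b (base (d i)) (base (d j)) → i = j := fun i j h => hd (base_unique h)
  have hp : ∀ i n, orb a n (base (c i)) = some (base (c i)) ↔
      orb b n (base (d i)) = some (base (d i)) := by
    intro i n
    obtain ⟨k, h1, h2⟩ := (hE i).per
    rw [h1 n, h2 n]
  obtain ⟨g, hg⟩ := exists_glue (a := a) (b := b) (fun i => base (c i)) (fun i => base (d i))
    δ hs ht hp
  obtain ⟨g', hg'⟩ := exists_glue (a := a) (b := b) (fun i => base (c i)) (fun i => base (d i))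
    (fun i => δ i - 1) hs ht hp
  have hv : ∀ y x, g'.symm y = some x ↔
      ∃ i n, orb a (n + 1) (base (c i)) = some x ∧ orb b (n + δ i) (base (d i)) = some y := by
    intro y x
    rw [PEquiv.eq_some_iff, hg']
    constructor
    · rintro ⟨i, n, h1, h2⟩
      exact ⟨i, n - 1, by rw [sub_add_cancel]; exact h1, by rw [← h2]; congr 1; ring⟩
    · rintro ⟨i, n, h1, h2⟩
      exact ⟨i, n + 1, h1, by rw [← h2]; congr 1; ring⟩
  refine ⟨g, g'.symm, ?_, ?_⟩
  · ext x y
    constructor
    · intro h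
      have h : a x = some y := h
      show (g.trans g'.symm) x = some y
      rw [PEquiv.trans_eq_some]
      obtain ⟨i, n, hn⟩ := hcov x (by rw [h]; rfl)
      have h1 : orb a (n + 1) (base (c i)) = some y := by rw [orb_succ_of hn]; exact h
      obtain ⟨z, hz⟩ := Option.isSome_iff_exists.1
        ((hE i).left n (by rw [hn]; rfl) (by rw [h1]; rfl))
      exact ⟨z, (hg x z).2 ⟨i, n, hn, hz⟩, (hv z y).2 ⟨i, n, h1, hz⟩⟩
    · intro h
      have h : (g.trans g'.symm) x = some y := h
      show a x = some y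
      rw [PEquiv.trans_eq_some] at h
      obtain ⟨z, h1, h2⟩ := h
      obtain ⟨i, n, h3, h4⟩ := (hg x z).1 h1
      obtain ⟨j, m, h5, h6⟩ := (hv z y).1 h2
      obtain rfl : i = j := ht i j (Conn.trans ⟨_, h4⟩ (Conn.symm ⟨_, h6⟩))
      rw [orb_eq_iff h4, ← hp] at h6
      have h7 := orb_shift h6 (n + 1)
      rw [show m + δ i - (n + δ i) + (n + 1) = m + 1 by ring, h5, orb_succ_of h3] at h7
      exact h7.symm
  · ext z w
    constructor
    · intro h
      have h : b z = some w := h
      show (g'.symm.trans g) z = some w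
      rw [PEquiv.trans_eq_some]
      obtain ⟨i, n', hn'⟩ := hcov' z (by rw [h]; rfl)
      obtain ⟨n, rfl⟩ : ∃ n, n' = n + δ i := ⟨n' - δ i, by ring⟩
      have h1 : orb b (n + 1 + δ i) (base (d i)) = some w := by
        rw [show n + 1 + δ i = n + δ i + 1 by ring, orb_succ_of hn']; exact h
      obtain ⟨y, hy⟩ := Option.isSome_iff_exists.1
        ((hE i).right n (by rw [hn']; rfl) (by rw [h1]; rfl))
      exact ⟨y, (hv z y).2 ⟨i, n, hy, hn'⟩, (hg y w).2 ⟨i, n + 1, hy, h1⟩⟩
    · intro h
      have h : (g'.symm.trans g) z = some w := h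
      show b z = some w
      rw [PEquiv.trans_eq_some] at h
      obtain ⟨y, h1, h2⟩ := h
      obtain ⟨i, n, h3, h4⟩ := (hv z y).1 h1
      obtain ⟨j, m, h5, h6⟩ := (hg y w).1 h2
      obtain rfl : i = j := hs i j (Conn.trans ⟨_, h3⟩ (Conn.symm ⟨_, h5⟩))
      rw [orb_eq_iff h3, hp] at h5
      have h7 := orb_shift h5 (n + 1 + δ i)
      rw [show m - (n + 1) + (n + 1 + δ i) = m + δ i by ring, h6,
        show n + 1 + δ i = n + δ i + 1 by ring, orb_succ_of h4] at h7
      exact h7.symm

/-- terminal points with finitely many predecessors -/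
def finTerm (a : X ≃. X) : Set X := {y | a y = none ∧ ∃ n : ℕ, ¬ (orb a (-(n : ℤ)) y).isSome}

/-- the number of predecessors -/
noncomputable def lev (a : X ≃. X) (y : X) : ℕ := (level a y).toNat

lemma le_lev_iff {a : X ≃. X} {y : X} (hy : y ∈ finTerm a) (n : ℕ) :
    n ≤ lev a y ↔ (orb a (-(n : ℤ)) y).isSome := by
  rw [← le_level_iff]
  have hne : level a y ≠ ⊤ := by
    intro h
    obtain ⟨m, hm⟩ := hy.2
    exact hm ((top_le_level_iff a y).1 h.ge m)
  unfold lev
  rw [← ENat.natCast_toNat hne]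
  simp

lemma orb_fin_iff {a : X ≃. X} {y : X} (hy : y ∈ finTerm a) (n : ℤ) :
    (orb a n y).isSome ↔ n ≤ 0 ∧ -n ≤ lev a y := by
  constructor
  · intro h
    have h0 := le_zero_of_terminal hy.1 h
    refine ⟨h0, ?_⟩
    obtain ⟨m, hm⟩ := Int.eq_ofNat_of_zero_le (show 0 ≤ -n by omega)
    obtain rfl : n = -(m : ℤ) := by omega
    rw [← le_lev_iff hy] at h
    omega
  · rintro ⟨h0, h1⟩
    obtain ⟨m, hm⟩ := Int.eq_ofNat_of_zero_le (show 0 ≤ -n by omega)
    obtain rfl : n = -(m : ℤ) := by omega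
    rw [← le_lev_iff hy]
    omega

lemma mk_chains {a : X ≃. X} (p q : ℕ) :
    #(chains a p q) = #{y : finTerm a // p ≤ lev a y.1 ∧ lev a y.1 ≤ q} := by
  have hm : ∀ y, y ∈ chains a p q → y ∈ finTerm a := by
    rintro y ⟨h1, h2, h3⟩
    exact ⟨h1, q + 1, by rw [h3]; simp⟩
  refine Cardinal.mk_congr ⟨fun y => ⟨⟨y.1, hm _ y.2⟩, (le_lev_iff (hm _ y.2) p).2 y.2.2.1, ?_⟩,
    fun y => ⟨y.1.1, y.1.2.1, (le_lev_iff y.1.2 p).1 y.2.1, ?_⟩, ?_, ?_⟩
  · by_contra hcon
    push Not at hcon
    have := (le_lev_iff (hm _ y.2) (q + 1)).1 hcon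
    rw [y.2.2.2] at this
    simp at this
  · by_contra hcon
    have h1 := (le_lev_iff y.1.2 (q + 1)).2 (Option.isSome_iff_ne_none.2 hcon)
    have := y.2.2
    omega
  · intro y; rfl
  · intro y; rfl

theorem pconj_iff (a b : X ≃. X) : PConj a b ↔
    (∀ k, #(biOrbits a k) = #(biOrbits b k)) ∧
    #(rightRays a) = #(rightRays b) ∧ #(leftRays a) = #(leftRays b) ∧
    (∀ p q, 1 ≤ p → p ≤ q → #(chains a p q) ≤ #(chains b (p - 1) (q + 1))) ∧
    (∀ p q, 1 ≤ p → p ≤ q → #(chains b p q) ≤ #(chains a (p - 1) (q + 1))) := by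
  constructor
  · rintro ⟨u, v, h1, h2⟩
    have h : Fac a b u v := ⟨h1, h2⟩
    exact ⟨fun k => le_antisymm (h.le_cycles k) (h.swap.le_cycles k),
      le_antisymm h.le_rightRays h.swap.le_rightRays, le_antisymm h.le_leftRays h.swap.le_leftRays,
      fun p q hp _ => h.le_chains p q hp, fun p q hp _ => h.swap.le_chains p q hp⟩
  · rintro ⟨hcyc, hR, hL, hch, hch'⟩
    classical
    have he : ∀ k, ∃ e : biOrbits a k → biOrbits b k, Bijective e := fun k => by
      obtain ⟨e⟩ := Cardinal.eq.1 (hcyc k)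
      exact ⟨e, e.bijective⟩
    choose e he using he
    obtain ⟨eR⟩ := Cardinal.eq.1 hR
    obtain ⟨eL⟩ := Cardinal.eq.1 hL
    have hcond : ∀ {a b : X ≃. X}, (∀ p q, 1 ≤ p → p ≤ q →
        #(chains a p q) ≤ #(chains b (p - 1) (q + 1))) → ∀ p q, 1 ≤ p → p ≤ q →
        #{x : finTerm a // p ≤ lev a x.1 ∧ lev a x.1 ≤ q} ≤
          #{y : finTerm b // p ≤ lev b y.1 + 1 ∧ lev b y.1 ≤ q + 1} := by
      intro a b h p q hp hpq
      have := h p q hp hpq
      rw [mk_chains, mk_chains] at this
      refine this.trans (Cardinal.mk_subtype_mono ?_)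
      rintro y ⟨h1, h2⟩
      exact ⟨by omega, h2⟩
    obtain ⟨M, hM1, hM2, hM3, hM4, hM5⟩ := exists_path_matching
      (fun x : finTerm a => lev a x.1) (fun y : finTerm b => lev b y.1)
      (hcond hch) (hcond hch')
    -- the index type
    let P : Type u := {p : finTerm a × finTerm b // M p.1 p.2}
    let iL : ∀ (c : X ≃. X), leftRays c → terminals c 0 := fun c y => ⟨y.1, y.2.1, by simp⟩
    let iF : ∀ (c : X ≃. X), finTerm c → terminals c 0 := fun c y => ⟨y.1, y.2.1, by simp⟩
    have hLF : ∀ (c : X ≃. X) (y : leftRays c) (z : finTerm c), iL c y ≠ iF c z := by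
      intro c y z hyz
      have h1 : y.1 = z.1 := by simpa [iL, iF] using hyz
      obtain ⟨n, hn⟩ := z.2.2
      rw [← h1] at hn
      exact hn (y.2.2 n)
    have hLi : ∀ c, Injective (iL c) := by
      intro c y z hyz
      simp only [iL, Subtype.mk.injEq] at hyz
      exact Subtype.ext hyz
    have hFi : ∀ c, Injective (iF c) := by
      intro c y z hyz
      simp only [iF, Subtype.mk.injEq] at hyz
      exact Subtype.ext hyz
    let ca : leftRays a ⊕ P → terminals a 0 := Sum.elim (iL a) (fun p => iF a p.1.1)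
    let cb : leftRays a ⊕ P → terminals b 0 := Sum.elim (fun y => iL b (eL y)) (fun p => iF b p.1.2)
    have hca : Injective ca := by
      rintro (y | p) (z | q) hyz
      · rw [hLi a hyz]
      · exact absurd hyz (hLF _ _ _)
      · exact absurd hyz.symm (hLF _ _ _)
      · have h1 : p.1.1 = q.1.1 := hFi a hyz
        congr 1
        refine Subtype.ext (Prod.ext h1 ?_)
        have h2 := q.2
        rw [← h1] at h2
        exact hM2 _ _ _ p.2 h2
    have hcb : Injective cb := by
      rintro (y | p) (z | q) hyz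
      · have := eL.injective (hLi b hyz)
        rw [this]
      · exact absurd hyz (hLF _ _ _)
      · exact absurd hyz.symm (hLF _ _ _)
      · have h1 : p.1.2 = q.1.2 := hFi b hyz
        congr 1
        refine Subtype.ext (Prod.ext ?_ h1)
        have h2 := q.2
        rw [← h1] at h2
        exact hM3 _ _ _ p.2 h2
    let δ : (Σ k : ℕ, biOrbits a (k + 1)) ⊕ ((biOrbits a 0 ⊕ rightRays a) ⊕ (leftRays a ⊕ P)) → ℤ :=
      Sum.elim (fun _ => 0) (Sum.elim (fun _ => 0) (Sum.elim (fun _ => 0)
        (fun p => if lev a p.1.1.1 ≤ lev b p.1.2.1 then 0 else 1)))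
    refine pconj_of_emb2 (a := a) (b := b)
      (I := (Σ k : ℕ, biOrbits a (k + 1)) ⊕ ((biOrbits a 0 ⊕ rightRays a) ⊕ (leftRays a ⊕ P)))
      (Sum.map id (Sum.map id ca)) (Sum.map_injective.2 ⟨injective_id, Sum.map_injective.2
        ⟨injective_id, hca⟩⟩)
      (Sum.map (Sigma.map id (fun k => e (k + 1))) (Sum.map (Sum.map (e 0) eR) cb))
      (Sum.map_injective.2 ⟨injective_id.sigma_map (fun k => (he (k + 1)).1),
        Sum.map_injective.2 ⟨Sum.map_injective.2 ⟨(he 0).1, eR.injective⟩, hcb⟩⟩) δ ?_ ?_ ?_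
    · rintro (⟨k, S⟩ | (S | w) | (y | p))
      · exact ⟨⟨k + 1, baseS_per S, baseS_per (e (k + 1) S)⟩,
          fun n _ _ => baseS_some (e (k + 1) S) _, fun n _ _ => baseS_some S _⟩
      · exact ⟨⟨0, baseS_per S, baseS_per (e 0 S)⟩,
          fun n _ _ => baseS_some (e 0 S) _, fun n _ _ => baseS_some S _⟩
      · have hpos : ∀ {c : X ≃. X} (w : rightRays c) (n : ℤ), (orb c n w.1).isSome → 0 ≤ n := by
          intro c w n hn
          by_contra hcon
          push Not at hcon
          have := orb_convex (n := n) (m := 0) (k := -1) (x := w.1) (a := c) hn (by simp)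
            (by omega) (by omega)
          rw [orb_neg_one, w.2.1] at this
          simp at this
        refine ⟨⟨0, per_zero_of_initial w.2.1, per_zero_of_initial (eR w).2.1⟩, ?_, ?_⟩
        · intro n hn _
          have hn : (orb a n w.1).isSome := hn
          show (orb b (n + 0) (eR w).1).isSome
          obtain ⟨m, rfl⟩ := Int.eq_ofNat_of_zero_le (hpos w n hn)
          rw [add_zero]
          exact (eR w).2.2 m
        · intro n hn _
          have hn : (orb b (n + 0) (eR w).1).isSome := hn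
          rw [add_zero] at hn
          show (orb a (n + 1) w.1).isSome
          obtain ⟨m, rfl⟩ := Int.eq_ofNat_of_zero_le (hpos (eR w) n hn)
          exact w.2.2 (m + 1)
      · have hneg : ∀ {c : X ≃. X} (y : leftRays c) (n : ℤ), n ≤ 0 → (orb c n y.1).isSome := by
          intro c y n hn
          obtain ⟨m, hm⟩ := Int.eq_ofNat_of_zero_le (show 0 ≤ -n by omega)
          obtain rfl : n = -(m : ℤ) := by omega
          exact y.2.2 m
        refine ⟨⟨0, per_zero_of_terminal y.2.1, per_zero_of_terminal (eL y).2.1⟩, ?_, ?_⟩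
        · intro n hn _
          have hn : (orb a n y.1).isSome := hn
          show (orb b (n + 0) (eL y).1).isSome
          rw [add_zero]
          exact hneg _ _ (le_zero_of_terminal y.2.1 hn)
        · intro n _ hn
          have hn : (orb b (n + 1 + 0) (eL y).1).isSome := hn
          rw [add_zero] at hn
          show (orb a (n + 1) y.1).isSome
          exact hneg _ _ (le_zero_of_terminal (eL y).2.1 hn)
      · have h1 := hM1 _ _ p.2
        have hA := p.1.1.2
        have hB := p.1.2.2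
        refine ⟨⟨0, per_zero_of_terminal hA.1, per_zero_of_terminal hB.1⟩, ?_, ?_⟩
        · intro n hn hn'
          have hn : (orb a n p.1.1.1).isSome := hn
          have hn' : (orb a (n + 1) p.1.1.1).isSome := hn'
          show (orb b (n + (if lev a p.1.1.1 ≤ lev b p.1.2.1 then 0 else 1)) p.1.2.1).isSome
          rw [orb_fin_iff hA] at hn hn'
          rw [orb_fin_iff hB]
          split_ifs with h2
          · omega
          · omega
        · intro n hn hn'
          have hn : (orb b (n + (if lev a p.1.1.1 ≤ lev b p.1.2.1 then 0 else 1))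
            p.1.2.1).isSome := hn
          have hn' : (orb b (n + 1 + (if lev a p.1.1.1 ≤ lev b p.1.2.1 then 0 else 1))
            p.1.2.1).isSome := hn'
          show (orb a (n + 1) p.1.1.1).isSome
          rw [orb_fin_iff hB] at hn hn'
          rw [orb_fin_iff hA]
          split_ifs at hn hn' with h2
          · omega
          · omega
    · -- covering for a
      intro x hx
      obtain ⟨c, hc⟩ := exists_code a x
      rcases c with ⟨k, S⟩ | p | y
      · exact ⟨Sum.inl ⟨k, S⟩, hc⟩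
      · exact ⟨Sum.inr (Sum.inl p), hc⟩
      · by_cases hy : ∀ n : ℕ, (orb a (-(n : ℤ)) y.1).isSome
        · exact ⟨Sum.inr (Sum.inr (Sum.inl ⟨y.1, y.2.1, hy⟩)), hc⟩
        · push Not at hy
          have hyf : y.1 ∈ finTerm a := ⟨y.2.1, hy⟩
          have h1 : 1 ≤ lev a y.1 := by
            rw [le_lev_iff hyf]
            obtain ⟨n, hn⟩ := hc
            have hn : orb a n y.1 = some x := hn
            have h0 := le_zero_of_terminal y.2.1 (n := n) (by rw [hn]; rfl)
            have h2 : n ≠ 0 := by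
              rintro rfl
              simp only [orb_zero, Option.some.injEq] at hn
              rw [← hn, y.2.1] at hx
              simp at hx
            refine orb_convex (n := n) (m := 0) (by rw [hn]; rfl) (by simp) ?_ (by simp)
            simp only [Nat.cast_one]; omega
          obtain ⟨z, hz⟩ := hM4 ⟨y.1, hyf⟩ h1
          exact ⟨Sum.inr (Sum.inr (Sum.inr ⟨(⟨y.1, hyf⟩, z), hz⟩)), hc⟩
    · intro x hx
      obtain ⟨c, hc⟩ := exists_code b x
      rcases c with ⟨k, S⟩ | (S | w) | y
      · obtain ⟨T, rfl⟩ := (he (k + 1)).2 S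
        exact ⟨Sum.inl ⟨k, T⟩, hc⟩
      · obtain ⟨T, rfl⟩ := (he 0).2 S
        exact ⟨Sum.inr (Sum.inl (Sum.inl T)), hc⟩
      · obtain ⟨w', rfl⟩ := eR.surjective w
        exact ⟨Sum.inr (Sum.inl (Sum.inr w')), hc⟩
      · by_cases hy : ∀ n : ℕ, (orb b (-(n : ℤ)) y.1).isSome
        · refine ⟨Sum.inr (Sum.inr (Sum.inl (eL.symm ⟨y.1, y.2.1, hy⟩))), ?_⟩
          show Conn b (eL (eL.symm ⟨y.1, y.2.1, hy⟩)).1 x
          rw [Equiv.apply_symm_apply]
          exact hc
        · push Not at hy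
          have hyf : y.1 ∈ finTerm b := ⟨y.2.1, hy⟩
          have h1 : 1 ≤ lev b y.1 := by
            rw [le_lev_iff hyf]
            obtain ⟨n, hn⟩ := hc
            have hn : orb b n y.1 = some x := hn
            have h0 := le_zero_of_terminal y.2.1 (n := n) (by rw [hn]; rfl)
            have h2 : n ≠ 0 := by
              rintro rfl
              simp only [orb_zero, Option.some.injEq] at hn
              rw [← hn, y.2.1] at hx
              simp at hx
            refine orb_convex (n := n) (m := 0) (by rw [hn]; rfl) (by simp) ?_ (by simp)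
            simp only [Nat.cast_one]; omega
          obtain ⟨z, hz⟩ := hM5 ⟨y.1, hyf⟩ h1
          exact ⟨Sum.inr (Sum.inr (Sum.inr ⟨(z, ⟨y.1, hyf⟩), hz⟩)), hc⟩

end Sufficiency

end Pool.Agent.V1114.Conj
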