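import Pool.Agent.V1114.Conj.Q2

/-!
The symmetric inverse monoid `I(X)`, c-conjugacy and p-conjugacy in a monoid with zero.
-/

namespace Pool.Agent.V1114.Conj

open Cardinal

universe u

/-- The symmetric inverse monoid on `X`: the partial injective maps of `X`. -/
abbrev SymInv (X : Type u) : Type u := X ≃. X

/-- Composition from left to right, the identity map and the empty map. -/
instance symInvMonoidWithZero (X : Type u) : MonoidWithZero (SymInv X) where
  mul a b := PEquiv.trans a b
  mul_assoc a b c := PEquiv.trans_assoc a b c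
  one := PEquiv.refl X
  one_mul a := PEquiv.refl_trans a
  mul_one a := PEquiv.trans_refl a
  zero := ⊥
  zero_mul a := PEquiv.bot_trans a
  mul_zero a := PEquiv.trans_bot a

/-- The set `ℙ(a)` of a monoid with zero: `ℙ(0) = {0}`, and for `a ≠ 0` it consists of the `g`
with `(m a) g ≠ 0` for all nonzero `m a`. -/
def PSet {S : Type u} [MonoidWithZero S] (a : S) : Set S :=
  {g | (a = 0 → g = 0) ∧ (a ≠ 0 → ∀ m : S, m * a ≠ 0 → (m * a) * g ≠ 0)}

/-- c-conjugacy in a monoid with zero. -/
def CConjugate {S : Type u} [MonoidWithZero S] (a b : S) : Prop :=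
  ∃ g ∈ PSet a ∪ {1}, ∃ h ∈ PSet b ∪ {1}, a * g = g * b ∧ b * h = h * a

/-- p-conjugacy in a monoid. -/
def PConjugate {S : Type u} [MonoidWithZero S] (a b : S) : Prop :=
  ∃ x y : S, a = x * y ∧ b = y * x

theorem cconjugate_iff {X : Type u} (a b : SymInv X) : CConjugate a b ↔ CConj a b := by
  constructor
  · rintro ⟨g, hg, h, hh, e1, e2⟩
    exact ⟨g, h, hg, hh, e1, e2⟩
  · rintro ⟨g, h, hg, hh, e1, e2⟩
    exact ⟨g, hg, h, hh, e1, e2⟩

theorem pconjugate_iff {X : Type u} (a b : SymInv X) : PConjugate a b ↔ PConj a b :=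
  Iff.rfl

end Pool.Agent.V1114.Conj
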