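import Pool.Agent.V1114.Conj.Q1

/-!
c-conjugacy in the symmetric inverse monoid: codes of components and the sufficiency direction.
-/

namespace Pool.Agent.V1114.Conj

open Cardinal Function

universe u

variable {X : Type u}

/-- `x` has period `k` (`k = 0`: aperiodic). -/
def Per (a : X ≃. X) (k : ℕ) (x : X) : Prop := ∀ n : ℤ, orb a n x = some x ↔ (k : ℤ) ∣ n

/-- forward infinite -/
def Fwd (a : X ≃. X) (x : X) : Prop := ∀ n : ℕ, (orb a n x).isSome

lemma Per.unique {a : X ≃. X} {k l : ℕ} {x : X} (h : Per a k x) (h' : Per a l x) : k = l := by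
  have h1 : (k : ℤ) ∣ l := (h l).1 ((h' l).2 dvd_rfl)
  have h2 : (l : ℤ) ∣ k := (h' k).1 ((h k).2 dvd_rfl)
  exact Nat.dvd_antisymm (Int.natCast_dvd_natCast.1 h1) (Int.natCast_dvd_natCast.1 h2)

lemma Per.of_conn {a : X ≃. X} {k : ℕ} {x y : X} (h : Per a k x) (hc : Conn a x y) :
    Per a k y := by
  obtain ⟨m, hm⟩ := hc
  intro n
  rw [← h n]
  have h1 : orb a (m + n) x = orb a n y := orb_shift hm n
  rw [← h1, orb_eq_iff hm]
  rw [add_sub_cancel_left]

lemma Fwd.of_conn {a : X ≃. X} {x y : X} (h : Fwd a x) (hc : Conn a x y) : Fwd a y := by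
  obtain ⟨m, hm⟩ := hc
  intro n
  rw [← orb_shift hm]
  rcases le_total 0 (m + n) with h0 | h0
  · obtain ⟨j, hj⟩ := Int.eq_ofNat_of_zero_le h0
    rw [hj]; exact h j
  · exact orb_convex (n := m) (m := 0) (by rw [hm]; rfl) (by simp) (by omega) h0

lemma not_fwd_of_terminal {a : X ≃. X} {y : X} (h : a y = none) : ¬ Fwd a y := by
  intro hf
  have := hf 1
  rw [Nat.cast_one, orb_one, h] at this
  simp at this

lemma le_zero_of_terminal {a : X ≃. X} {y : X} (h : a y = none) {n : ℤ}
    (hn : (orb a n y).isSome) : n ≤ 0 := by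
  by_contra hcon
  push Not at hcon
  have := orb_convex (n := 0) (m := n) (k := 1) (x := y) (a := a) (by simp) hn (by omega) (by omega)
  rw [orb_one, h] at this
  simp at this

lemma conn_terminal_eq {a : X ≃. X} {y z : X} (hy : a y = none) (hz : a z = none)
    (h : Conn a y z) : y = z := by
  obtain ⟨n, hn⟩ := h
  have h1 := le_zero_of_terminal hy (n := n) (by rw [hn]; rfl)
  have h2 := le_zero_of_terminal hz (n := -n) (by rw [orb_symm hn]; rfl)
  obtain rfl : n = 0 := by omega
  simpa using hn

lemma per_zero_of_terminal {a : X ≃. X} {y : X} (h : a y = none) : Per a 0 y := by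
  intro n
  rw [Nat.cast_zero, zero_dvd_iff]
  constructor
  · intro hn
    have h1 := le_zero_of_terminal h (n := n) (by rw [hn]; rfl)
    have h2 := le_zero_of_terminal h (n := -n) (by rw [orb_symm hn]; rfl)
    omega
  · rintro rfl; rfl

lemma per_zero_of_initial {a : X ≃. X} {y : X} (h : a.symm y = none) : Per a 0 y := by
  have h1 : Per a.symm 0 y := per_zero_of_terminal h
  intro n
  have h2 := h1 (-n)
  rw [orb_symm_eq, neg_neg, dvd_neg] at h2
  exact h2

/-- codes for the components of `a` -/
abbrev Code (a : X ≃. X) : Type u :=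
  (Σ k : ℕ, biOrbits a (k + 1)) ⊕ ((biOrbits a 0 ⊕ rightRays a) ⊕ terminals a 0)

/-- base point of a biinfinite component -/
noncomputable def baseS {a : X ≃. X} {k : ℕ} (S : biOrbits a k) : X :=
  (biOrbits_nonempty S.2).choose

lemma baseS_mem {a : X ≃. X} {k : ℕ} (S : biOrbits a k) : baseS S ∈ S.1 :=
  (biOrbits_nonempty S.2).choose_spec.1

lemma baseS_some {a : X ≃. X} {k : ℕ} (S : biOrbits a k) (n : ℤ) : (orb a n (baseS S)).isSome :=
  (biOrbits_nonempty S.2).choose_spec.2.1 n

lemma baseS_per {a : X ≃. X} {k : ℕ} (S : biOrbits a k) : Per a k (baseS S) :=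
  (biOrbits_nonempty S.2).choose_spec.2.2.1

lemma baseS_fwd {a : X ≃. X} {k : ℕ} (S : biOrbits a k) : Fwd a (baseS S) :=
  fun n => baseS_some S n

/-- base point of a forward infinite aperiodic component -/
noncomputable def baseR {a : X ≃. X} (p : biOrbits a 0 ⊕ rightRays a) : X :=
  Sum.elim (fun S => baseS S) (fun w => w.1) p

lemma baseR_rep {a : X ≃. X} (p : biOrbits a 0 ⊕ rightRays a) : Rep a p (baseR p) := by
  rcases p with S | w
  · exact baseS_mem S
  · exact Conn.refl _ _

lemma baseR_per {a : X ≃. X} (p : biOrbits a 0 ⊕ rightRays a) : Per a 0 (baseR p) := by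
  rcases p with S | w
  · exact baseS_per S
  · exact per_zero_of_initial w.2.1

lemma baseR_fwd {a : X ≃. X} (p : biOrbits a 0 ⊕ rightRays a) : Fwd a (baseR p) := by
  rcases p with S | w
  · exact baseS_fwd S
  · exact w.2.2

/-- base point of a component -/
noncomputable def base {a : X ≃. X} (c : Code a) : X :=
  Sum.elim (fun p => baseS p.2) (Sum.elim (fun p => baseR p) (fun y => y.1)) c

lemma base_unique {a : X ≃. X} {c d : Code a} (h : Conn a (base c) (base d)) : c = d := by
  rcases c with ⟨k, S⟩ | p | y <;> rcases d with ⟨l, T⟩ | q | z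
  · have h1 : Conn a (baseS S) (baseS T) := h
    have h2 : k + 1 = l + 1 := ((baseS_per S).of_conn h1).unique (baseS_per T)
    obtain rfl : k = l := by omega
    congr 2
    apply Subtype.ext
    rw [biOrbits_eq_of_mem S.2 (baseS_mem S), biOrbits_eq_of_mem T.2 (baseS_mem T)]
    exact orbitSet_eq_of_conn h1
  · exfalso
    have h1 : Conn a (baseS S) (baseR q) := h
    have := ((baseS_per S).of_conn h1).unique (baseR_per q)
    omega
  · exfalso
    have h1 : Conn a (baseS S) z.1 := h
    exact not_fwd_of_terminal z.2.1 ((baseS_fwd S).of_conn h1)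
  · exfalso
    have h1 : Conn a (baseR p) (baseS T) := h
    have := ((baseR_per p).of_conn h1).unique (baseS_per T)
    omega
  · have h1 : Conn a (baseR p) (baseR q) := h
    congr 2
    exact (baseR_rep p).unique (baseR_rep q) h1
  · exfalso
    have h1 : Conn a (baseR p) z.1 := h
    exact not_fwd_of_terminal z.2.1 ((baseR_fwd p).of_conn h1)
  · exfalso
    have h1 : Conn a y.1 (baseS T) := h
    exact not_fwd_of_terminal y.2.1 ((baseS_fwd T).of_conn h1.symm)
  · exfalso
    have h1 : Conn a y.1 (baseR q) := h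
    exact not_fwd_of_terminal y.2.1 ((baseR_fwd q).of_conn h1.symm)
  · have h1 : Conn a y.1 z.1 := h
    congr 2
    exact Subtype.ext (conn_terminal_eq y.2.1 z.2.1 h1)

/-- every point lies in a coded component -/
lemma exists_code (a : X ≃. X) (x : X) : ∃ c : Code a, Conn a (base c) x := by
  rcases forward_cases a x with hf | ⟨n, y, h1, h2⟩
  · obtain ⟨k, hk⟩ := exists_period a x
    rcases k with _ | k
    · obtain ⟨p, hp⟩ := exists_rep (a := a) (x := x) hf hk
      exact ⟨Sum.inr (Sum.inl p), (baseR_rep p).conn hp⟩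
    · have hall : ∀ n : ℤ, (orb a n x).isSome := by
        intro n
        rcases Int.eq_nat_or_neg n with ⟨m, rfl | rfl⟩
        · exact hf m
        · have h3 : orb a (-(((k + 1 : ℕ) : ℤ) * m)) x = some x :=
            (hk _).2 ((dvd_mul_right _ _).neg_right)
          refine orb_convex (n := -(((k + 1 : ℕ) : ℤ) * m)) (m := 0) (by rw [h3]; rfl) (by simp)
            ?_ (by omega)
          have : (m : ℤ) ≤ ((k + 1 : ℕ) : ℤ) * m := by
            push_cast; nlinarith [Int.natCast_nonneg m, Int.natCast_nonneg k,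
              mul_nonneg (Int.natCast_nonneg k) (Int.natCast_nonneg m)]
          omega
      let S : biOrbits a (k + 1) := ⟨orbitSet a x, x, hall, hk, rfl⟩
      refine ⟨Sum.inl ⟨k, S⟩, ?_⟩
      exact conn_of_mem_biOrbits S.2 (baseS_mem S) (mem_orbitSet_self a x)
  · refine ⟨Sum.inr (Sum.inr ⟨y, h2, by simp⟩), Conn.symm ⟨_, h1⟩⟩

/-- the embedding condition for base points -/
structure Emb (a b : X ≃. X) (s t : X) : Prop where
  per : ∃ k, Per a k s ∧ Per b k t
  some_of : ∀ n : ℤ, (orb a n s).isSome → (orb b n t).isSome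
  end_of : ∀ (n : ℤ) (x x' : X), orb a n s = some x → orb b n t = some x' → (b x').isSome →
    (a x).isSome

lemma half_of_emb {a b : X ≃. X} {I : Type u} (c : I → Code a) (hc : Injective c)
    (d : I → Code b) (hd : Injective d) (hE : ∀ i, Emb a b (base (c i)) (base (d i)))
    (hcov : ∀ x, (a.symm x).isSome → ∃ i, Conn a (base (c i)) x) : Half a b := by
  obtain ⟨g, hg⟩ := exists_glue (a := a) (b := b) (fun i => base (c i)) (fun i => base (d i))
    (fun _ => 0) (fun i j h => hc (base_unique h)) (fun i j h => hd (base_unique h))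
    (fun i n => by
      obtain ⟨k, h1, h2⟩ := (hE i).per
      rw [h1 n, h2 n])
  have hg' : ∀ x y, g x = some y ↔
      ∃ i n, orb a n (base (c i)) = some x ∧ orb b n (base (d i)) = some y := by
    intro x y
    rw [hg]
    simp
  have hdom : ∀ x, (a.symm x).isSome → (g x).isSome := by
    intro x hx
    obtain ⟨i, n, hn⟩ := hcov x hx
    obtain ⟨y, hy⟩ := Option.isSome_iff_exists.1 ((hE i).some_of n (by rw [hn]; rfl))
    rw [Option.isSome_iff_exists]
    exact ⟨y, (hg' x y).2 ⟨i, n, hn, hy⟩⟩
  refine ⟨g, hdom, ?_⟩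
  ext x y
  constructor
  · intro h
    have h : (a.trans g) x = some y := h
    show (g.trans b) x = some y
    rw [PEquiv.trans_eq_some] at h ⊢
    obtain ⟨z, hz1, hz2⟩ := h
    obtain ⟨i, n, h1, h2⟩ := (hg' z y).1 hz2
    have h3 : orb a (n - 1) (base (c i)) = some x := by
      rw [orb_pred_of h1]; exact (PEquiv.eq_some_iff a).2 hz1
    obtain ⟨x', hx'⟩ := Option.isSome_iff_exists.1 ((hE i).some_of (n - 1) (by rw [h3]; rfl))
    refine ⟨x', (hg' x x').2 ⟨i, n - 1, h3, hx'⟩, ?_⟩
    have := orb_succ_of hx'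
    rw [sub_add_cancel, h2] at this
    exact this.symm
  · intro h
    have h : (g.trans b) x = some y := h
    show (a.trans g) x = some y
    rw [PEquiv.trans_eq_some] at h ⊢
    obtain ⟨x', hx1, hx2⟩ := h
    obtain ⟨i, n, h1, h2⟩ := (hg' x x').1 hx1
    obtain ⟨z, hz⟩ := Option.isSome_iff_exists.1 ((hE i).end_of n x x' h1 h2 (by rw [hx2]; rfl))
    refine ⟨z, hz, (hg' z y).2 ⟨i, n + 1, ?_, ?_⟩⟩
    · rw [orb_succ_of h1, hz]
    · rw [orb_succ_of h2, hx2]

lemma emb_of_fwd {a b : X ≃. X} {s t : X} {k : ℕ} (h1 : Per a k s) (h2 : Per b k t)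
    (hs : Fwd a s) (h : ∀ n : ℤ, (orb a n s).isSome → (orb b n t).isSome) : Emb a b s t := by
  refine ⟨⟨k, h1, h2⟩, h, ?_⟩
  intro n x x' hx _ _
  have := (hs.of_conn ⟨n, hx⟩) 1
  rw [Nat.cast_one, orb_one] at this
  exact this

lemma emb_of_terminal {a b : X ≃. X} {s t : X} (h1 : a s = none) (h2 : b t = none)
    (h : level a s ≤ level b t) : Emb a b s t := by
  refine ⟨⟨0, per_zero_of_terminal h1, per_zero_of_terminal h2⟩, ?_, ?_⟩
  · intro n hn
    have h0 := le_zero_of_terminal h1 hn
    obtain ⟨m, hm⟩ := Int.eq_ofNat_of_zero_le (show 0 ≤ -n by omega)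
    obtain rfl : n = -(m : ℤ) := by omega
    rw [← le_level_iff] at hn ⊢
    exact hn.trans h
  · intro n x x' hx hx' hb
    have h0 := le_zero_of_terminal h1 (n := n) (by rw [hx]; rfl)
    rcases h0.lt_or_eq with h0 | h0
    · have := orb_convex (n := n) (m := 0) (k := n + 1) (x := s) (a := a) (by rw [hx]; rfl)
        (by simp) (by omega) (by omega)
      rwa [orb_succ_of hx] at this
    · exfalso
      subst h0
      simp only [orb_zero, Option.some.injEq] at hx'
      subst hx'
      rw [h2] at hb
      simp at hb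

/-- the numerical conditions -/
structure NumLe (a b : X ≃. X) : Prop where
  cyc : ∀ k, #(biOrbits a k) ≤ #(biOrbits b k)
  ray : #(biOrbits a 0) + #(rightRays a) ≤ #(biOrbits b 0) + #(rightRays b)
  left : #(leftRays a) ≤ #(leftRays b)
  term : ∀ k, 1 ≤ k → #(terminals a k) ≤ #(terminals b k)

lemma numLe_of_half {a b : X ≃. X} (h : Half a b) : NumLe a b := by
  obtain ⟨g, hg, e⟩ := h
  exact ⟨nec_cycles hg e, nec_rep hg e, nec_leftRays hg e, nec_terminals hg e⟩

lemma half_of_numLe {a b : X ≃. X} (h : NumLe a b) : Half a b := by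
  classical
  -- cycles
  have hF : ∀ k : ℕ, ∃ F : biOrbits a (k + 1) → biOrbits b (k + 1), Injective F := by
    intro k
    obtain ⟨F⟩ := h.cyc (k + 1)
    exact ⟨F, F.injective⟩
  choose F hF using hF
  -- forward infinite components
  have hR : ∃ G : biOrbits a 0 ⊕ rightRays a → biOrbits b 0 ⊕ rightRays b, Injective G ∧
      ∀ S, ∃ T, G (Sum.inl S) = Sum.inl T := by
    let lev : ∀ {c : X ≃. X}, biOrbits c 0 ⊕ rightRays c → ℕ := fun {c} p =>
      Sum.elim (fun _ => 1) (fun _ => 0) p
    obtain ⟨G, h1, h2⟩ := exists_level_injection (A := biOrbits a 0 ⊕ rightRays a)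
      (B := biOrbits b 0 ⊕ rightRays b) (W := ℕ) lev lev (by
        intro w
        rcases w with _ | _ | w
        · have e : ∀ c : X ≃. X, #{x : biOrbits c 0 ⊕ rightRays c // 0 ≤ lev x} =
              #(biOrbits c 0) + #(rightRays c) := by
            intro c
            rw [Cardinal.add_def]
            exact Cardinal.mk_congr (Equiv.subtypeUnivEquiv (fun x => Nat.zero_le _))
          rw [e a, e b]
          exact h.ray
        · have e : ∀ c : X ≃. X, #{x : biOrbits c 0 ⊕ rightRays c // 0 + 1 ≤ lev x} =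
              #(biOrbits c 0) := by
            intro c
            refine Cardinal.mk_congr ⟨fun x => match x with
              | ⟨Sum.inl S, _⟩ => S
              | ⟨Sum.inr w, hw⟩ => absurd hw (by simp [lev]), fun S => ⟨Sum.inl S, by simp [lev]⟩,
              ?_, ?_⟩
            · rintro ⟨S | w, hw⟩
              · rfl
              · exact absurd hw (by simp [lev])
            · intro S; rfl
          rw [e a, e b]
          exact h.cyc 0
        · have e : IsEmpty {x : biOrbits a 0 ⊕ rightRays a // w + 1 + 1 ≤ lev x} := by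
            refine ⟨?_⟩
            rintro ⟨S | w, hw⟩ <;> simp [lev] at hw
          rw [Cardinal.mk_eq_zero_iff.2 e]
          exact zero_le)
    refine ⟨G, h1, fun S => ?_⟩
    have := h2 (Sum.inl S)
    rcases hG : G (Sum.inl S) with T | w
    · exact ⟨T, rfl⟩
    · rw [hG] at this
      simp [lev] at this
  obtain ⟨G, hG, hG'⟩ := hR
  -- terminal components
  have hT : ∃ T : terminals a 1 → terminals b 0, Injective T ∧
      ∀ y, level a y.1 ≤ level b (T y).1 := by
    obtain ⟨T, h1, h2⟩ := exists_level_injection (A := terminals a 1) (B := terminals b 1)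
      (W := ℕ∞) (fun y => level a y.1) (fun y => level b y.1) (by
        intro w
        have hone : ∀ {c : X ≃. X} (y : X) (k : ℕ), 1 ≤ k → (orb c (-(k : ℤ)) y).isSome →
            (orb c (-((1 : ℕ) : ℤ)) y).isSome := fun {c} y k hk hy =>
          orb_convex (n := -(k : ℤ)) (m := 0) hy (by simp) (by omega) (by omega)
        induction w using ENat.recTopCoe with
        | top =>
          have e : ∀ c : X ≃. X, #{x : terminals c 1 // ⊤ ≤ level c x.1} = #(leftRays c) := by
            intro c
            refine Cardinal.mk_congr ⟨fun x => ⟨x.1.1, x.1.2.1, (top_le_level_iff _ _).1 x.2⟩,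
              fun y => ⟨⟨y.1, y.2.1, y.2.2 1⟩, (top_le_level_iff _ _).2 y.2.2⟩, ?_, ?_⟩
            · intro x; rfl
            · intro y; rfl
          rw [e a, e b]
          exact h.left
        | coe k =>
          have e : ∀ c : X ≃. X, #{x : terminals c 1 // (k : ℕ∞) ≤ level c x.1} =
              #(terminals c (max k 1)) := by
            intro c
            refine Cardinal.mk_congr ⟨fun x => ⟨x.1.1, x.1.2.1, ?_⟩,
              fun y => ⟨⟨y.1, y.2.1, ?_⟩, ?_⟩, ?_, ?_⟩
            · rcases le_total k 1 with hk | hk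
              · rw [max_eq_right hk]; exact x.1.2.2
              · rw [max_eq_left hk]; exact (le_level_iff _ _ _).1 x.2
            · exact hone y.1 _ (le_max_right k 1) y.2.2
            · show (k : ℕ∞) ≤ level c y.1
              rw [le_level_iff]
              exact orb_convex (n := -((max k 1 : ℕ) : ℤ)) (m := 0) y.2.2 (by simp)
                (by have := le_max_left k 1; omega) (by omega)
            · intro x; rfl
            · intro y; rfl
          rw [e a, e b]
          exact h.term _ (le_max_right k 1))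
    refine ⟨fun y => ⟨(T y).1, (T y).2.1, by simp⟩, ?_, h2⟩
    intro y z hyz
    apply h1
    simp only [Subtype.mk.injEq] at hyz
    exact Subtype.ext hyz
  obtain ⟨T, hT, hT'⟩ := hT
  -- assemble
  let incl : terminals a 1 → terminals a 0 := fun y => ⟨y.1, y.2.1, by simp⟩
  have hincl : Injective incl := by
    intro y z hyz
    simp only [incl, Subtype.mk.injEq] at hyz
    exact Subtype.ext hyz
  refine half_of_emb (a := a) (b := b)
    (I := (Σ k : ℕ, biOrbits a (k + 1)) ⊕ ((biOrbits a 0 ⊕ rightRays a) ⊕ terminals a 1))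
    (Sum.map id (Sum.map id incl)) (Sum.map_injective.2 ⟨injective_id, Sum.map_injective.2
      ⟨injective_id, hincl⟩⟩)
    (Sum.map (Sigma.map id F) (Sum.map G T)) (Sum.map_injective.2
      ⟨injective_id.sigma_map hF, Sum.map_injective.2 ⟨hG, hT⟩⟩) ?_ ?_
  · rintro (⟨k, S⟩ | p | y)
    · exact emb_of_fwd (k := k + 1) (baseS_per S) (baseS_per (F k S)) (baseS_fwd S)
        (fun n _ => baseS_some (F k S) n)
    · refine emb_of_fwd (k := 0) (baseR_per p) (baseR_per (G p)) (baseR_fwd p) ?_
      rcases p with S | w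
      · obtain ⟨T', hT'⟩ := hG' S
        intro n _
        show (orb b n (baseR (G (Sum.inl S)))).isSome
        rw [hT']
        exact baseS_some T' n
      · intro n hn
        have hn : (orb a n w.1).isSome := hn
        have h0 : 0 ≤ n := by
          by_contra hcon
          push Not at hcon
          have := orb_convex (n := n) (m := 0) (k := -1) (x := w.1) (a := a) hn (by simp)
            (by omega) (by omega)
          rw [orb_neg_one, w.2.1] at this
          simp at this
        obtain ⟨m, rfl⟩ := Int.eq_ofNat_of_zero_le h0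
        exact baseR_fwd (G (Sum.inr w)) m
    · exact emb_of_terminal y.2.1 (T y).2.1 (hT' y)
  · intro x hx
    obtain ⟨c, hc⟩ := exists_code a x
    rcases c with ⟨k, S⟩ | p | y
    · exact ⟨Sum.inl ⟨k, S⟩, hc⟩
    · exact ⟨Sum.inr (Sum.inl p), hc⟩
    · refine ⟨Sum.inr (Sum.inr ⟨y.1, y.2.1, ?_⟩), hc⟩
      obtain ⟨n, hn⟩ := hc
      have hn : orb a n y.1 = some x := hn
      have h0 := le_zero_of_terminal y.2.1 (n := n) (by rw [hn]; rfl)
      have h1 := orb_pred_of hn
      refine orb_convex (n := n - 1) (m := 0) (by rw [h1]; exact hx) (by simp) ?_ (by simp)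
      simp only [Nat.cast_one]; omega

theorem cconj_iff (a b : X ≃. X) : CConj a b ↔
    (∀ k, #(biOrbits a k) = #(biOrbits b k)) ∧
    #(biOrbits a 0) + #(rightRays a) = #(biOrbits b 0) + #(rightRays b) ∧
    #(leftRays a) = #(leftRays b) ∧
    ∀ k, 1 ≤ k → #(terminals a k) = #(terminals b k) := by
  rw [cconj_iff_half]
  constructor
  · rintro ⟨h1, h2⟩
    have h1 := numLe_of_half h1
    have h2 := numLe_of_half h2
    exact ⟨fun k => le_antisymm (h1.cyc k) (h2.cyc k), le_antisymm h1.ray h2.ray,
      le_antisymm h1.left h2.left, fun k hk => le_antisymm (h1.term k hk) (h2.term k hk)⟩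
  · rintro ⟨h1, h2, h3, h4⟩
    exact ⟨half_of_numLe ⟨fun k => (h1 k).le, h2.le, h3.le, fun k hk => (h4 k hk).le⟩,
      half_of_numLe ⟨fun k => (h1 k).ge, h2.ge, h3.ge, fun k hk => (h4 k hk).ge⟩⟩

end Pool.Agent.V1114.Conj
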